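import Mathlib

set_option autoImplicit false

open Finset
open scoped Pointwise

namespace Pool.Agent.MP_34e614_co

variable {G : Type*} [Group G] [DecidableEq G]

/-- The part of a finite set lying in a set `U`. -/
noncomputable def part (X : Finset G) (U : Set G) : Finset G := by
  classical exact X.filter (fun g => g ∈ U)

omit [Group G] [DecidableEq G] in
@[simp] lemma mem_part {X : Finset G} {U : Set G} {g : G} : g ∈ part X U ↔ g ∈ X ∧ g ∈ U := by
  classical
  unfold part
  simp

omit [Group G] [DecidableEq G] in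
lemma part_mono {X X' : Finset G} {U U' : Set G} (h : X ⊆ X') (h' : U ⊆ U') :
    part X U ⊆ part X' U' := by
  intro g hg
  rw [mem_part] at hg ⊢
  exact ⟨h hg.1, h' hg.2⟩

omit [DecidableEq G] in
/-- Fibre counting. -/
lemma card_le_of_fibre {β : Type*} (X : Finset G) (φ : G → β) (E : Finset β) (Q : Finset G)
    (hE : ∀ x ∈ X, φ x ∈ E) (hQ : ∀ x ∈ X, ∀ y ∈ X, φ x = φ y → x⁻¹ * y ∈ Q) :
    X.card ≤ Q.card * E.card := by
  classical
  refine Finset.card_le_mul_card_image_of_maps_to hE _ ?_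
  intro e _
  rcases (X.filter (fun a => φ a = e)).eq_empty_or_nonempty with h | ⟨x, hx⟩
  · rw [h]; simp
  · rw [mem_filter] at hx
    refine Finset.card_le_card_of_injOn (fun y => x⁻¹ * y) ?_ ?_
    · intro y hy
      rw [mem_coe, mem_filter] at hy
      exact hQ x hx.1 y hy.1 (hx.2.trans hy.2.symm)
    · intro y _ z _ h
      exact mul_left_cancel h

omit [DecidableEq G] in
/-- A transversal for the left cosets of `H` met by `X`. -/
lemma exists_transversal (X : Finset G) (H : Subgroup G) (Q : Finset G)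
    (hQ : ∀ x ∈ X, ∀ y ∈ X, x⁻¹ * y ∈ H → x⁻¹ * y ∈ Q) :
    ∃ Y : Finset G, Y ⊆ X ∧ (∀ y ∈ Y, ∀ y' ∈ Y, y⁻¹ * y' ∈ H → y = y') ∧
      X.card ≤ Q.card * Y.card := by
  classical
  obtain ⟨Y, hYX, hinj, himg⟩ := Finset.exists_subset_injOn_image_eq_of_surjOn
    (f := (QuotientGroup.mk : G → G ⧸ H)) (X : Set G) (X.image QuotientGroup.mk) (by
      intro z hz
      simpa using hz)
  refine ⟨Y, by exact_mod_cast hYX, ?_, ?_⟩
  · intro y hy y' hy' h
    exact hinj hy hy' (QuotientGroup.eq.mpr h)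
  · have h1 := card_le_of_fibre X (QuotientGroup.mk : G → G ⧸ H) (X.image QuotientGroup.mk) Q
      (fun x hx => mem_image_of_mem _ hx) (fun x hx y hy h => hQ x hx y hy (QuotientGroup.eq.mp h))
    have h2 : (X.image (QuotientGroup.mk : G → G ⧸ H)).card ≤ Y.card := by
      rw [← himg]; exact card_image_le
    exact h1.trans (Nat.mul_le_mul_left _ h2)

omit [DecidableEq G] in
/-- Disjoint translates. -/
lemma card_mul_le_of_sep (Y E W : Finset G)
    (hsep : ∀ u ∈ Y, ∀ u' ∈ Y, ∀ e ∈ E, ∀ e' ∈ E, u * e = u' * e' → u = u')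
    (hW : ∀ u ∈ Y, ∀ e ∈ E, u * e ∈ W) : Y.card * E.card ≤ W.card := by
  classical
  rw [← card_product]
  refine Finset.card_le_card_of_injOn (fun p => p.1 * p.2) ?_ ?_
  · intro p hp
    rw [mem_coe, mem_product] at hp
    exact hW _ hp.1 _ hp.2
  · intro p hp q hq h
    rw [mem_coe, mem_product] at hp hq
    have h1 := hsep _ hp.1 _ hq.1 _ hp.2 _ hq.2 h
    have h2 : p.2 = q.2 := by
      have h' : p.1 * p.2 = q.1 * q.2 := h
      rw [h1] at h'
      exact mul_left_cancel h'
    exact Prod.ext h1 h2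

/-- Density inside a subgroup. -/
lemma card_mul_part_le (X B : Finset G) (H : Subgroup G) :
    X.card * (part B H).card ≤ (X * B).card * (part (X⁻¹ * X) H).card := by
  obtain ⟨Y, hYX, hsep, hcard⟩ := exists_transversal X H (part (X⁻¹ * X) H) (by
    intro x hx y hy h
    rw [mem_part]
    exact ⟨mul_mem_mul (inv_mem_inv hx) hy, h⟩)
  have h1 : Y.card * (part B H).card ≤ (X * B).card := by
    refine card_mul_le_of_sep Y _ _ ?_ ?_
    · intro u hu u' hu' e he e' he' h
      rw [mem_part] at he he'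
      refine hsep u hu u' hu' ?_
      have : u⁻¹ * u' = e * e'⁻¹ := by
        calc u⁻¹ * u' = u⁻¹ * (u' * e') * e'⁻¹ := by group
          _ = u⁻¹ * (u * e) * e'⁻¹ := by rw [h]
          _ = e * e'⁻¹ := by group
      rw [this]
      exact H.mul_mem he.2 (H.inv_mem he'.2)
    · intro u hu e he
      rw [mem_part] at he
      exact mul_mem_mul (hYX hu) he.1
  calc X.card * (part B H).card ≤ ((part (X⁻¹ * X) H).card * Y.card) * (part B H).card :=
        Nat.mul_le_mul_right _ hcard
    _ = (Y.card * (part B H).card) * (part (X⁻¹ * X) H).card := by ring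
    _ ≤ _ := Nat.mul_le_mul_right _ h1

lemma inv_mem_pow_of_symm {S : Finset G} (hS : S⁻¹ = S) {n : ℕ} {g : G} (hg : g ∈ S ^ n) :
    g⁻¹ ∈ S ^ n := by
  have : (S ^ n)⁻¹ = S ^ n := by rw [← inv_pow, hS]
  rw [← this]
  exact inv_mem_inv hg

lemma mul_mem_pow_add {S : Finset G} {a b : ℕ} {g h : G} (hg : g ∈ S ^ a) (hh : h ∈ S ^ b) :
    g * h ∈ S ^ (a + b) := by
  rw [pow_add]; exact mul_mem_mul hg hh

/-- The centre of a subgroup, as a subgroup of the ambient group. -/
def cen (H : Subgroup G) : Subgroup G := H ⊓ Subgroup.centralizer (H : Set G)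

omit [DecidableEq G] in
lemma mem_cen {H : Subgroup G} {g : G} : g ∈ cen H ↔ g ∈ H ∧ ∀ h ∈ H, h * g = g * h := by
  unfold cen
  rw [Subgroup.mem_inf, Subgroup.mem_centralizer_iff]
  rfl

omit [DecidableEq G] in
lemma cen_comm (H : Subgroup G) : ∀ x ∈ cen H, ∀ y ∈ cen H, x * y = y * x := by
  intro x hx y hy
  rw [mem_cen] at hx hy
  exact hy.2 x hx.1

/-- The centraliser of `b` in `H`. -/
def cz (H : Subgroup G) (b : G) : Subgroup G := H ⊓ Subgroup.centralizer ({b} : Set G)

omit [DecidableEq G] in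
lemma mem_cz {H : Subgroup G} {b g : G} : g ∈ cz H b ↔ g ∈ H ∧ b * g = g * b := by
  unfold cz
  rw [Subgroup.mem_inf, Subgroup.mem_centralizer_iff]
  simp

/-- The greedy centraliser chain. -/
lemma greedy (S : Finset G) (h1 : (1 : G) ∈ S) (T r Q : ℕ) (hQ : 1 ≤ Q) (H0 : Subgroup G)
    (hstop : ∀ Z : Subgroup G, (∀ x ∈ Z, ∀ y ∈ Z, x * y = y * x) →
      (part (S ^ (4 * r)) Z).card < 2 ^ r)
    (hstep : ∀ H : Subgroup G, H ≤ H0 → T < (part (S ^ 2) H).card →
      ∃ b ∈ S ^ 4, b ∈ H ∧ b ∉ cen H ∧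
        (part (S ^ 2) H).card ≤ Q * (part (S ^ 2) (cz H b)).card) :
    (part (S ^ 2) H0).card ≤ T * Q ^ r := by
  by_contra hcon
  push Not at hcon
  have key : ∀ j, j ≤ r → ∃ H : Subgroup G, H ≤ H0 ∧ ∃ P : Finset G,
      (∀ p ∈ P, p ∈ S ^ (4 * j) ∧ p ∈ cen H) ∧ P.card = 2 ^ j ∧
      (part (S ^ 2) H0).card ≤ Q ^ j * (part (S ^ 2) H).card := by
    intro j
    induction j with
    | zero =>
      intro _
      refine ⟨H0, le_rfl, {1}, ?_, by simp, by simp⟩
      intro p hp
      rw [mem_singleton] at hp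
      subst hp
      exact ⟨by simp, (cen H0).one_mem⟩
    | succ j ih =>
      intro hj
      obtain ⟨H, hH, P, hP, hPc, hc⟩ := ih (by omega)
      have hT : T < (part (S ^ 2) H).card := by
        by_contra hh
        push Not at hh
        have h2 : Q ^ j ≤ Q ^ r := Nat.pow_le_pow_right hQ (by omega)
        have : (part (S ^ 2) H0).card ≤ T * Q ^ r := by
          calc _ ≤ Q ^ j * (part (S ^ 2) H).card := hc
            _ ≤ Q ^ r * T := Nat.mul_le_mul h2 hh
            _ = T * Q ^ r := by ring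
        omega
      obtain ⟨b, hb4, hbH, hbc, hcb⟩ := hstep H hH hT
      have hsub : ∀ p, p ∈ cen H → p ∈ cen (cz H b) := by
        intro p hp
        rw [mem_cen] at hp ⊢
        refine ⟨mem_cz.mpr ⟨hp.1, hp.2 b hbH⟩, fun h hh => hp.2 h (mem_cz.mp hh).1⟩
      have hbb : b ∈ cen (cz H b) := by
        rw [mem_cen]
        exact ⟨mem_cz.mpr ⟨hbH, rfl⟩, fun h hh => (mem_cz.mp hh).2.symm⟩
      refine ⟨cz H b, le_trans inf_le_left hH, P ∪ P.image (fun p => p * b), ?_, ?_, ?_⟩
      · intro p hp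
        rw [mem_union, mem_image] at hp
        have h14 : (1 : G) ∈ S ^ 4 := one_mem_pow h1
        rcases hp with hp | ⟨p', hp', rfl⟩
        · refine ⟨?_, hsub p (hP p hp).2⟩
          have := mul_mem_pow_add (hP p hp).1 h14
          rw [mul_one] at this
          rw [show 4 * (j + 1) = 4 * j + 4 by ring]; exact this
        · refine ⟨?_, (cen (cz H b)).mul_mem (hsub p' (hP p' hp').2) hbb⟩
          have := mul_mem_pow_add (hP p' hp').1 hb4
          rw [show 4 * (j + 1) = 4 * j + 4 by ring]; exact this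
      · rw [card_union_of_disjoint, card_image_of_injective _ (mul_left_injective b), hPc]
        · ring
        · rw [disjoint_left]
          intro p hp hp2
          rw [mem_image] at hp2
          obtain ⟨p', hp', rfl⟩ := hp2
          apply hbc
          have := (cen H).mul_mem ((cen H).inv_mem (hP p' hp').2) (hP _ hp).2
          simpa using this
      · calc _ ≤ Q ^ j * (part (S ^ 2) H).card := hc
          _ ≤ Q ^ j * (Q * (part (S ^ 2) (cz H b)).card) := Nat.mul_le_mul_left _ hcb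
          _ = _ := by ring
  obtain ⟨H, -, P, hP, hPc, -⟩ := key r le_rfl
  have h3 := hstop (cen H) (cen_comm H)
  have h4 : P.card ≤ (part (S ^ (4 * r)) (cen H)).card := by
    apply card_le_card
    intro p hp
    rw [mem_part]
    exact hP p hp
  omega

end Pool.Agent.MP_34e614_co
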