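import Mathlib

set_option autoImplicit false

open Finset
open scoped Pointwise

namespace Pool.Agent.MP_34e614_co

variable {G : Type*} [Group G] [DecidableEq G]

/-- Indicator of `a⁻¹ x ∈ A²`. -/
noncomputable def ind (A : Finset G) (a x : G) : ℝ := if a⁻¹ * x ∈ A ^ 2 then 1 else 0

/-- The averaged indicator. -/
noncomputable def av (A : Finset G) (x : G) : ℝ := (∑ a ∈ A, ind A a x) / A.card

/-- Sum of deviations of a sample. -/
noncomputable def dev (A : Finset G) {k : ℕ} (a : Fin k → G) (x : G) : ℝ :=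
  ∑ i, (ind A (a i) x - av A x)

lemma ind_nonneg (A : Finset G) (a x : G) : 0 ≤ ind A a x := by
  unfold ind; split_ifs <;> norm_num

lemma ind_le_one (A : Finset G) (a x : G) : ind A a x ≤ 1 := by
  unfold ind; split_ifs <;> norm_num

lemma av_nonneg (A : Finset G) (x : G) : 0 ≤ av A x :=
  div_nonneg (sum_nonneg fun a _ => ind_nonneg A a x) (Nat.cast_nonneg _)

lemma av_le_one (A : Finset G) (x : G) : av A x ≤ 1 := by
  unfold av
  apply div_le_one_of_le₀ _ (Nat.cast_nonneg _)
  calc ∑ a ∈ A, ind A a x ≤ ∑ _a ∈ A, (1 : ℝ) := sum_le_sum fun a _ => ind_le_one A a x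
    _ = A.card := by simp

lemma ind_eq_zero {A : Finset G} {a x : G} (ha : a ∈ A) (hx : x ∉ A ^ 3) : ind A a x = 0 := by
  unfold ind
  rw [if_neg]
  intro h
  apply hx
  have := mul_mem_mul ha h
  rw [← pow_succ'] at this
  simpa using this

lemma av_eq_zero {A : Finset G} {x : G} (hx : x ∉ A ^ 3) : av A x = 0 := by
  unfold av
  rw [sum_eq_zero fun a ha => ind_eq_zero ha hx]
  simp

lemma av_eq_one {A : Finset G} (hA : A⁻¹ = A) {x : G} (hx : x ∈ A) : av A x = 1 := by
  unfold av
  have h0 : (0 : ℝ) < A.card := by exact_mod_cast card_pos.mpr ⟨x, hx⟩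
  rw [div_eq_one_iff_eq h0.ne']
  calc ∑ a ∈ A, ind A a x = ∑ _a ∈ A, (1 : ℝ) := by
        refine sum_congr rfl fun a ha => ?_
        unfold ind
        rw [if_pos]
        rw [sq]
        refine mul_mem_mul ?_ hx
        rw [← hA]; exact inv_mem_inv ha
    _ = A.card := by simp

lemma mgf_one (A : Finset G) (hA : A.Nonempty) (x : G) (η : ℝ) (hη : |η| ≤ 1) :
    ∑ a ∈ A, Real.exp (η * (ind A a x - av A x)) ≤ A.card * Real.exp (η ^ 2) := by
  have h0 : (0 : ℝ) < A.card := by exact_mod_cast card_pos.mpr hA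
  have h1 : ∀ a ∈ A, Real.exp (η * (ind A a x - av A x)) ≤
      1 + η * (ind A a x - av A x) + η ^ 2 := by
    intro a _
    have hd : |ind A a x - av A x| ≤ 1 := by
      rw [abs_le]
      have := ind_nonneg A a x
      have := ind_le_one A a x
      have := av_nonneg A x
      have := av_le_one A x
      constructor <;> linarith
    have hy : |η * (ind A a x - av A x)| ≤ 1 := by
      rw [abs_mul]
      exact mul_le_one₀ hη (abs_nonneg _) hd
    have h2 := Real.abs_exp_sub_one_sub_id_le hy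
    have h3 : (η * (ind A a x - av A x)) ^ 2 ≤ η ^ 2 := by
      rw [mul_pow]
      have : (ind A a x - av A x) ^ 2 ≤ 1 := by
        rw [← sq_abs]
        exact pow_le_one₀ (abs_nonneg _) hd
      nlinarith [sq_nonneg η]
    have := (abs_le.mp h2).2
    linarith
  have h2 : ∑ a ∈ A, (ind A a x - av A x) = 0 := by
    rw [sum_sub_distrib, sum_const, nsmul_eq_mul]
    unfold av
    field_simp
    ring
  calc _ ≤ ∑ a ∈ A, (1 + η * (ind A a x - av A x) + η ^ 2) := sum_le_sum h1
    _ = A.card * (1 + η ^ 2) := by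
        rw [sum_add_distrib, sum_add_distrib, ← mul_sum, h2]
        simp
        ring
    _ ≤ _ := by
        apply mul_le_mul_of_nonneg_left _ h0.le
        have := Real.add_one_le_exp (η ^ 2)
        linarith

lemma mgf (A : Finset G) (hA : A.Nonempty) (k : ℕ) (x : G) (η : ℝ) (hη : |η| ≤ 1) :
    ∑ a ∈ Fintype.piFinset (fun _ : Fin k => A), Real.exp (η * dev A a x) ≤
      (A.card : ℝ) ^ k * Real.exp (k * η ^ 2) := by
  have h1 : ∀ a : Fin k → G, Real.exp (η * dev A a x) =
      ∏ i, Real.exp (η * (ind A (a i) x - av A x)) := by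
    intro a
    unfold dev
    rw [mul_sum, Real.exp_sum]
  simp_rw [h1]
  rw [← Finset.prod_univ_sum (fun _ : Fin k => A)
    (fun _ a => Real.exp (η * (ind A a x - av A x)))]
  rw [prod_const, card_univ, Fintype.card_fin, Real.exp_nat_mul, ← mul_pow]
  exact pow_le_pow_left₀ (sum_nonneg fun a _ => (Real.exp_pos _).le) (mgf_one A hA x η hη) k

/-- Exponential smallness of a function on all sets of size at most `N`. -/
def Pb (N : ℕ) (B : ℝ) (g : G → ℝ) : Prop :=
  ∀ X : Finset G, X.card ≤ N → ∑ x ∈ X, Real.exp (g x) ≤ B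

lemma Pb.translate {N : ℕ} {B : ℝ} {g : G → ℝ} (h : Pb N B g) (t : G) :
    Pb N B (fun x => g (t * x)) := by
  intro X hX
  have := h (X.image (fun x => t * x)) (card_image_le.trans hX)
  rwa [sum_image (fun x _ y _ hxy => mul_left_cancel hxy)] at this

omit [Group G] [DecidableEq G] in
lemma Pb.convex {N : ℕ} {B : ℝ} {g g' : G → ℝ} (h : Pb N B g) (h' : Pb N B g') {a b : ℝ}
    (ha : 0 ≤ a) (hb : 0 ≤ b) (hab : a + b = 1) : Pb N B (fun x => a * g x + b * g' x) := by
  intro X hX
  have h1 : ∀ x ∈ X, Real.exp (a * g x + b * g' x) ≤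
      a * Real.exp (g x) + b * Real.exp (g' x) := by
    intro x _
    exact convexOn_exp.2 (Set.mem_univ (g x)) (Set.mem_univ (g' x)) ha hb hab
  calc _ ≤ ∑ x ∈ X, (a * Real.exp (g x) + b * Real.exp (g' x)) := sum_le_sum h1
    _ = a * ∑ x ∈ X, Real.exp (g x) + b * ∑ x ∈ X, Real.exp (g' x) := by
        rw [sum_add_distrib, mul_sum, mul_sum]
    _ ≤ a * B + b * B :=
        add_le_add (mul_le_mul_of_nonneg_left (h X hX) ha) (mul_le_mul_of_nonneg_left (h' X hX) hb)
    _ = B := by rw [← add_mul, hab, one_mul]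

omit [Group G] in
lemma Pb_of_support {N : ℕ} {B : ℝ} {g : G → ℝ} (D : Finset G) (hD : ∀ x, x ∉ D → g x = 0)
    (h : ∑ x ∈ D, Real.exp (g x) ≤ B) : Pb N (B + N) g := by
  intro X hX
  rw [← sum_filter_add_sum_filter_not X (fun x => x ∈ D)]
  apply add_le_add
  · refine le_trans (sum_le_sum_of_subset_of_nonneg ?_ fun _ _ _ => (Real.exp_pos _).le) h
    intro x hx
    exact (mem_filter.mp hx).2
  · calc _ = ∑ _x ∈ X.filter (fun x => x ∉ D), (1 : ℝ) := by
          refine sum_congr rfl fun x hx => ?_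
          rw [hD x (mem_filter.mp hx).2, Real.exp_zero]
      _ = (X.filter (fun x => x ∉ D)).card := by simp
      _ ≤ N := by exact_mod_cast (card_filter_le _ _).trans hX

/-- Many samples are good. -/
lemma good_samples (A : Finset G) (hA : A.Nonempty) (k : ℕ) (θ : ℝ) (hθ : |θ| ≤ 1) :
    ∃ L : Finset (Fin k → G), L ⊆ Fintype.piFinset (fun _ : Fin k => A) ∧
      (A.card : ℝ) ^ k ≤ 2 * L.card ∧ ∀ a ∈ L,
        Pb A.card (4 * Real.exp (k * θ ^ 2) * (A ^ 3).card + A.card) (fun x => θ * dev A a x) ∧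
        Pb A.card (4 * Real.exp (k * θ ^ 2) * (A ^ 3).card + A.card) (fun x => -θ * dev A a x) := by
  classical
  set Ω := Fintype.piFinset (fun _ : Fin k => A) with hΩ
  set Φ : (Fin k → G) → ℝ := fun a =>
    ∑ x ∈ A ^ 3, (Real.exp (θ * dev A a x) + Real.exp (-θ * dev A a x)) with hΦ
  set c : ℝ := 4 * Real.exp (k * θ ^ 2) * (A ^ 3).card with hc
  have hc0 : 0 < c := by
    have : (0 : ℝ) < (A ^ 3).card := by exact_mod_cast card_pos.mpr (hA.pow)
    positivity
  have hΩc : (Ω.card : ℝ) = (A.card : ℝ) ^ k := by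
    rw [hΩ, Fintype.card_piFinset]; simp
  have hsum : ∑ a ∈ Ω, Φ a ≤ (A.card : ℝ) ^ k * (c / 2) := by
    simp only [hΦ]
    rw [sum_comm]
    calc _ ≤ ∑ _x ∈ A ^ 3, 2 * ((A.card : ℝ) ^ k * Real.exp (k * θ ^ 2)) := by
          refine sum_le_sum fun x _ => ?_
          rw [sum_add_distrib]
          have h1 := mgf A hA k x θ hθ
          have h2 := mgf A hA k x (-θ) (by rwa [abs_neg])
          rw [neg_sq] at h2
          linarith
      _ = _ := by rw [sum_const, nsmul_eq_mul, hc]; ring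
  have hΦ0 : ∀ a, 0 ≤ Φ a := fun a =>
    sum_nonneg fun x _ => add_nonneg (Real.exp_pos _).le (Real.exp_pos _).le
  refine ⟨Ω.filter (fun a => Φ a ≤ c), filter_subset _ _, ?_, ?_⟩
  · have h1 : ((Ω.filter (fun a => ¬ Φ a ≤ c)).card : ℝ) * c ≤ (A.card : ℝ) ^ k * (c / 2) := by
      calc _ = ∑ _a ∈ Ω.filter (fun a => ¬ Φ a ≤ c), c := by rw [sum_const, nsmul_eq_mul]
        _ ≤ ∑ a ∈ Ω.filter (fun a => ¬ Φ a ≤ c), Φ a :=
            sum_le_sum fun a ha => (not_le.mp (mem_filter.mp ha).2).le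
        _ ≤ ∑ a ∈ Ω, Φ a :=
            sum_le_sum_of_subset_of_nonneg (filter_subset _ _) fun a _ _ => hΦ0 a
        _ ≤ _ := hsum
    have h2 : ((Ω.filter (fun a => ¬ Φ a ≤ c)).card : ℝ) ≤ (A.card : ℝ) ^ k / 2 := by
      have : ((Ω.filter (fun a => ¬ Φ a ≤ c)).card : ℝ) * c ≤ ((A.card : ℝ) ^ k / 2) * c := by
        linarith
      exact le_of_mul_le_mul_right this hc0
    have h3 := card_filter_add_card_filter_not (s := Ω) (fun a => Φ a ≤ c)
    have h4 : ((Ω.filter (fun a => Φ a ≤ c)).card : ℝ) +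
        (Ω.filter (fun a => ¬ Φ a ≤ c)).card = (A.card : ℝ) ^ k := by
      rw [← hΩc]; exact_mod_cast h3
    linarith
  · intro a ha
    rw [mem_filter] at ha
    have hdev : ∀ x, x ∉ A ^ 3 → dev A a x = 0 := by
      intro x hx
      unfold dev
      refine sum_eq_zero fun i _ => ?_
      rw [ind_eq_zero (Fintype.mem_piFinset.mp ha.1 i) hx, av_eq_zero hx, sub_zero]
    have h1 := ha.2
    simp only [hΦ] at h1
    rw [sum_add_distrib] at h1
    have h2 : 0 ≤ ∑ x ∈ A ^ 3, Real.exp (θ * dev A a x) :=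
      sum_nonneg fun x _ => (Real.exp_pos _).le
    have h3 : 0 ≤ ∑ x ∈ A ^ 3, Real.exp (-θ * dev A a x) :=
      sum_nonneg fun x _ => (Real.exp_pos _).le
    constructor
    · exact Pb_of_support (A ^ 3) (fun x hx => by simp [hdev x hx]) (by linarith)
    · exact Pb_of_support (A ^ 3) (fun x hx => by simp [hdev x hx]) (by linarith)

/-- Pigeonhole over translates of samples. -/
lemma exists_popular (A : Finset G) {k : ℕ} (L : Finset (Fin k → G))
    (hL : L ⊆ Fintype.piFinset (fun _ : Fin k => A)) :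
    ∃ (z : Fin k → G) (U : Finset G), (∀ u ∈ U, (fun i => u⁻¹ * z i) ∈ L) ∧
      A.card * L.card ≤ U.card * (A ^ 2).card ^ k := by
  classical
  set U : (Fin k → G) → Finset G := fun z => A.filter (fun u => (fun i => u⁻¹ * z i) ∈ L) with hU
  set Ω := Fintype.piFinset (fun _ : Fin k => A ^ 2) with hΩ
  have hΩc : Ω.card = (A ^ 2).card ^ k := by rw [hΩ, Fintype.card_piFinset]; simp
  rcases Ω.eq_empty_or_nonempty with h0 | h0
  · refine ⟨fun _ => 1, ∅, by simp, ?_⟩
    rcases A.eq_empty_or_nonempty with h | ⟨u, hu⟩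
    · simp [h]
    · exfalso
      have : (fun _ : Fin k => u * u) ∈ Ω := by
        rw [hΩ, Fintype.mem_piFinset]
        intro i
        rw [sq]; exact mul_mem_mul hu hu
      rw [h0] at this
      simp at this
  obtain ⟨z, -, hz⟩ := exists_max_image Ω (fun z => (U z).card) h0
  refine ⟨z, U z, fun u hu => (mem_filter.mp hu).2, ?_⟩
  rw [← card_product, ← hΩc]
  refine Finset.card_le_mul_card_image_of_maps_to
    (f := fun p : G × (Fin k → G) => fun i => p.1 * p.2 i) ?_ _ ?_
  · intro p hp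
    rw [mem_product] at hp
    rw [hΩ, Fintype.mem_piFinset]
    intro i
    rw [sq]
    exact mul_mem_mul hp.1 (Fintype.mem_piFinset.mp (hL hp.2) i)
  · intro w hw
    refine le_trans ?_ (hz w hw)
    refine Finset.card_le_card_of_injOn (fun p => p.1) ?_ ?_
    · intro p hp
      rw [mem_coe, mem_filter, mem_product] at hp
      rw [mem_coe, hU, mem_filter]
      refine ⟨hp.1.1, ?_⟩
      have : (fun i => p.1⁻¹ * w i) = p.2 := by
        funext i
        rw [← hp.2]; simp
      rw [this]; exact hp.1.2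
    · intro p hp q hq hpq
      rw [mem_coe, mem_filter] at hp hq
      have h1 : p.1 = q.1 := hpq
      refine Prod.ext h1 ?_
      funext i
      have h2 := congrFun (hp.2.trans hq.2.symm) i
      rw [h1] at h2
      exact mul_left_cancel h2

/-- The Croot-Sisask form of the Sanders lemma for arbitrary groups. -/
theorem croot_sisask (A : Finset G) (hA : A.Nonempty) (hsymm : A⁻¹ = A) (K : ℝ) (hK : 1 ≤ K)
    (h3 : ((A ^ 3).card : ℝ) ≤ K * A.card) (m n : ℕ) (hm : 1 ≤ m) (hn : 5 * K < Real.exp n) :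
    ∃ S : Finset G, (1 : G) ∈ S ∧ S⁻¹ = S ∧ S ^ m ⊆ A ^ 4 ∧
      (A.card : ℝ) ≤ 2 * K ^ (16 * m ^ 2 * n) * S.card := by
  set k := 16 * m ^ 2 * n with hk
  have hm' : (1 : ℝ) ≤ m := by exact_mod_cast hm
  have hA0 : (0 : ℝ) < A.card := by exact_mod_cast card_pos.mpr hA
  set θ : ℝ := 1 / (4 * m) with hθ
  have hθ1 : |θ| ≤ 1 := by
    rw [abs_of_nonneg (by positivity), hθ, div_le_one (by positivity)]
    linarith
  have hkθ : (k : ℝ) * θ ^ 2 = n := by
    rw [hk, hθ]; push_cast; field_simp; ring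
  obtain ⟨L, hLΩ, hLc, hL⟩ := good_samples A hA k θ hθ1
  rw [hkθ] at hL
  set B : ℝ := 4 * Real.exp n * (A ^ 3).card + A.card with hB
  obtain ⟨z, U, hU, hUc⟩ := exists_popular A L hLΩ
  have h23 : ((A ^ 2).card : ℝ) ≤ K * A.card := by
    refine le_trans ?_ h3
    rw [show A ^ 3 = A ^ 2 * A from pow_succ A 2]
    exact_mod_cast card_le_card_mul_right hA
  have hUc' : (A.card : ℝ) ≤ 2 * K ^ k * U.card := by
    have h1 : (A.card : ℝ) * L.card ≤ U.card * ((A ^ 2).card : ℝ) ^ k := by exact_mod_cast hUc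
    have h2 : ((A ^ 2).card : ℝ) ^ k ≤ (K * A.card) ^ k :=
      pow_le_pow_left₀ (Nat.cast_nonneg _) h23 k
    have h4 : (A.card : ℝ) * A.card ^ k ≤ (2 * K ^ k * U.card) * A.card ^ k := by
      calc (A.card : ℝ) * A.card ^ k ≤ A.card * (2 * L.card) :=
            mul_le_mul_of_nonneg_left hLc hA0.le
        _ = 2 * (A.card * L.card) := by ring
        _ ≤ 2 * (U.card * (K * A.card) ^ k) := by
            have := mul_le_mul_of_nonneg_left h2 (Nat.cast_nonneg (α := ℝ) U.card)
            linarith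
        _ = _ := by rw [mul_pow]; ring
    exact le_of_mul_le_mul_right h4 (pow_pos hA0 k)
  have hUne : U.Nonempty := by
    rw [← card_pos]
    by_contra h
    have : U.card = 0 := by omega
    rw [this] at hUc'
    simp at hUc'
    exact hA.ne_empty hUc'
  set s : ℝ := 4 * m * n with hs
  have hone : ∀ t ∈ U⁻¹ * U, Pb A.card B (fun x => s / 2 * (av A x - av A (t⁻¹ * x))) := by
    intro t ht
    obtain ⟨u0, hu0, u', hu', rfl⟩ := mem_mul.mp ht
    obtain ⟨u, hu, rfl⟩ := mem_inv.mp hu0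
    have h1 := (hL _ (hU u hu)).2
    have h2 := ((hL _ (hU u' hu')).1).translate (u⁻¹ * u')⁻¹
    have h4 := h1.convex h2 (a := 1 / 2) (b := 1 / 2) (by norm_num) (by norm_num) (by norm_num)
    convert h4 using 2 with x
    unfold dev
    have h5 : ∀ i, ind A (u'⁻¹ * z i) ((u⁻¹ * u')⁻¹ * x) = ind A (u⁻¹ * z i) x := by
      intro i
      unfold ind
      rw [show (u'⁻¹ * z i)⁻¹ * ((u⁻¹ * u')⁻¹ * x) = (u⁻¹ * z i)⁻¹ * x by group]
    simp only [h5]
    rw [sum_sub_distrib, sum_sub_distrib]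
    simp only [sum_const, card_univ, Fintype.card_fin, nsmul_eq_mul]
    have h6 : s = θ * k := by rw [hs, hθ, hk]; push_cast; field_simp; ring
    rw [h6]; ring
  have hmany : ∀ j : ℕ, ∀ t ∈ (U⁻¹ * U) ^ (j + 1),
      Pb A.card B (fun x => s / (2 * (j + 1)) * (av A x - av A (t⁻¹ * x))) := by
    intro j
    induction j with
    | zero =>
      intro t ht
      have := hone t (by simpa using ht)
      simpa using this
    | succ j ih =>
      intro t ht
      rw [pow_succ] at ht
      obtain ⟨t1, ht1, t2, ht2, rfl⟩ := mem_mul.mp ht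
      have h1 := ih t1 ht1
      have h2 := (hone t2 ht2).translate t1⁻¹
      have hj : (0 : ℝ) ≤ j := Nat.cast_nonneg j
      have h4 := h1.convex h2 (a := (j + 1) / (j + 2)) (b := 1 / (j + 2)) (by positivity)
        (by positivity) (by field_simp; ring)
      convert h4 using 2 with x
      rw [show (t1 * t2)⁻¹ * x = t2⁻¹ * (t1⁻¹ * x) by group]
      push_cast
      field_simp
      ring
  refine ⟨U⁻¹ * U, ?_, by simp, ?_, ?_⟩
  · obtain ⟨u, hu⟩ := hUne
    have := mul_mem_mul (inv_mem_inv hu) hu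
    simpa using this
  · intro t ht
    by_contra hnot
    obtain ⟨j, rfl⟩ : ∃ j, m = j + 1 := ⟨m - 1, by omega⟩
    have h1 := hmany j t ht A le_rfl
    have h2 : ∀ x ∈ A, Real.exp (s / (2 * (j + 1)) * (av A x - av A (t⁻¹ * x))) =
        Real.exp n * Real.exp n := by
      intro x hx
      rw [av_eq_one hsymm hx, av_eq_zero, ← Real.exp_add, hs]
      · congr 1
        push_cast
        field_simp
        ring
      · intro h
        apply hnot
        have h' : (t⁻¹ * x)⁻¹ ∈ A ^ 3 := by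
          have : (A ^ 3)⁻¹ = A ^ 3 := by rw [← inv_pow, hsymm]
          rw [← this]
          exact inv_mem_inv h
        have := mul_mem_mul hx h'
        rw [← pow_succ'] at this
        simpa using this
    rw [sum_congr rfl h2, sum_const, nsmul_eq_mul, hB] at h1
    have he : 1 ≤ Real.exp n := Real.one_le_exp (Nat.cast_nonneg n)
    have h4 : 4 * Real.exp n * ((A ^ 3).card : ℝ) ≤ 4 * Real.exp n * (K * A.card) :=
      mul_le_mul_of_nonneg_left h3 (by positivity)
    have h5 : (1 : ℝ) ≤ Real.exp n * K := one_le_mul_of_one_le_of_one_le he hK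
    have h6 : (A.card : ℝ) * (Real.exp n * Real.exp n) ≤ A.card * (Real.exp n * (5 * K)) := by
      nlinarith
    have h7 := le_of_mul_le_mul_left h6 hA0
    have h8 := le_of_mul_le_mul_left h7 (Real.exp_pos n)
    linarith
  · refine hUc'.trans (mul_le_mul_of_nonneg_left ?_ (by positivity))
    exact_mod_cast card_le_card_mul_left hUne.inv

end Pool.Agent.MP_34e614_co
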