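import Mathlib

set_option autoImplicit false

namespace Pool.Agent.MP_34e614_co

/-- `G` has a series (in the sense of P. Hall, of arbitrary order type) with abelian factors which
is invariant under conjugation: a set `J` of pairs `(Λ, V)` of subgroups such that every `g ≠ 1`
lies in some `Λ \ V`, each `V` lies between `[Λ, Λ]` and `Λ`, the pairs are linearly ordered, and
conjugation by elements of `G` permutes the pairs. -/
def HasInvariantAbelianSeries (G : Type*) [Group G] : Prop :=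
  ∃ J : Set (Subgroup G × Subgroup G),
    (∀ g : G, g ≠ 1 → ∃ p ∈ J, g ∈ p.1 ∧ g ∉ p.2) ∧
    (∀ p ∈ J, ⁅p.1, p.1⁆ ≤ p.2 ∧ p.2 ≤ p.1) ∧
    (∀ p ∈ J, ∀ q ∈ J, p = q ∨ p.1 ≤ q.2 ∨ q.1 ≤ p.2) ∧
    (∀ p ∈ J, ∀ a : G,
      (p.1.map (MulAut.conj a).toMonoidHom, p.2.map (MulAut.conj a).toMonoidHom) ∈ J)

/-- `G` has a central series of arbitrary order type: a set `J` of pairs `(Λ, V)` of subgroups
such that every `g ≠ 1` lies in some `Λ \ V`, each `V` lies between `[Λ, G]` and `Λ`, and the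
pairs are linearly ordered. -/
def HasCentralSeries (G : Type*) [Group G] : Prop :=
  ∃ J : Set (Subgroup G × Subgroup G),
    (∀ g : G, g ≠ 1 → ∃ p ∈ J, g ∈ p.1 ∧ g ∉ p.2) ∧
    (∀ p ∈ J, ⁅p.1, (⊤ : Subgroup G)⁆ ≤ p.2 ∧ p.2 ≤ p.1) ∧
    (∀ p ∈ J, ∀ q ∈ J, p = q ∨ p.1 ≤ q.2 ∨ q.1 ≤ p.2)

end Pool.Agent.MP_34e614_co
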