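import Pool.Agent.MP_34e614_co.Core
import Pool.Agent.MP_34e614_co.Defs

set_option autoImplicit false

open Finset
open scoped Pointwise commutatorElement

namespace Pool.Agent.MP_34e614_co

variable {G : Type*} [Group G]

lemma quot_eq {u u' e e' : G} (h : u * e = u' * e') : u⁻¹ * u' = e * e'⁻¹ := by
  calc u⁻¹ * u' = u⁻¹ * (u' * e') * e'⁻¹ := by group
    _ = u⁻¹ * (u * e) * e'⁻¹ := by rw [h]
    _ = e * e'⁻¹ := by group

/-- The lowest jump of a series met by the quotients of a finite set. -/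
lemma exists_bottom (J : Set (Subgroup G × Subgroup G))
    (h1 : ∀ g : G, g ≠ 1 → ∃ p ∈ J, g ∈ p.1 ∧ g ∉ p.2) (h2 : ∀ p ∈ J, p.2 ≤ p.1)
    (h3 : ∀ p ∈ J, ∀ q ∈ J, p = q ∨ p.1 ≤ q.2 ∨ q.1 ≤ p.2) (Y : Finset G) (hY : 2 ≤ Y.card) :
    ∃ y ∈ Y, ∃ y' ∈ Y, y ≠ y' ∧ ∃ p ∈ J, y⁻¹ * y' ∈ p.1 ∧
      ∀ u ∈ Y, ∀ u' ∈ Y, u⁻¹ * u' ∈ p.2 → u = u' := by
  classical
  choose! f hfJ hf1 hf2 using h1
  set B := Y.offDiag with hB
  have hne : ∀ z ∈ B, z.1⁻¹ * z.2 ≠ 1 := by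
    intro z hz h
    exact (mem_offDiag.mp hz).2.2 (inv_mul_eq_one.mp h)
  have hBne : B.Nonempty := by
    obtain ⟨a, ha, b, hb, hab⟩ := one_lt_card.mp hY
    exact ⟨(a, b), mem_offDiag.mpr ⟨ha, hb, hab⟩⟩
  obtain ⟨z, hz, hmin⟩ := B.exists_minimalFor (fun z : G × G => (f (z.1⁻¹ * z.2)).1) hBne
  have hz' := mem_offDiag.mp hz
  refine ⟨z.1, hz'.1, z.2, hz'.2.1, hz'.2.2, f (z.1⁻¹ * z.2), hfJ _ (hne z hz), hf1 _ (hne z hz), ?_⟩
  intro u hu u' hu' hmem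
  by_contra huu
  have hw : (u, u') ∈ B := mem_offDiag.mpr ⟨hu, hu', huu⟩
  have hg := hne _ hw
  rcases h3 _ (hfJ _ (hne z hz)) _ (hfJ _ hg) with h | h | h
  · exact hf2 _ hg (h ▸ hmem)
  · exact hf2 _ hg (h (h2 _ (hfJ _ (hne z hz)) hmem))
  · have h4 : (f (u⁻¹ * u')).1 ≤ (f (z.1⁻¹ * z.2)).1 := h.trans (h2 _ (hfJ _ (hne z hz)))
    have h5 := hmin hw h4
    exact hf2 _ (hne z hz) (h (h5 (hf1 _ (hne z hz))))

/-- A factor which is residually abelian or of order at most `D` satisfies the inner condition. -/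
lemma good_of_residual {M N : Subgroup G} {D : ℕ} (hD : 1 ≤ D)
    (hN : ∀ a ∈ M, ∀ x ∈ N, x ∈ M → a * x * a⁻¹ ∈ N)
    (hres : ∀ g ∈ M, g ∉ N → ∃ L : Subgroup G, g ∉ L ∧ (∀ a ∈ M, ∀ x ∈ L, a * x * a⁻¹ ∈ L) ∧
      ((∀ a ∈ M, ∀ x ∈ M, a * x * a⁻¹ * x⁻¹ ∈ L) ∨
        ∃ col : G → ℕ, (∀ e ∈ M, col e < D) ∧
          ∀ e ∈ M, ∀ e' ∈ M, col e = col e' → e * e'⁻¹ ∈ L)) :
    Good M N D := by
  classical
  intro Y hYM hY
  have hq : ∀ y ∈ Y, ∀ y' ∈ Y, y⁻¹ * y' ∈ M := fun y hy y' hy' =>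
    M.mul_mem (M.inv_mem (hYM y hy)) (hYM y' hy')
  by_cases hc : ∃ y ∈ Y, ∃ y' ∈ Y, y ≠ y' ∧ y⁻¹ * y' ∈ N
  · obtain ⟨y, hy, y', hy', hne, hmem⟩ := hc
    refine ⟨y, hy, y', hy', hne, ∅, fun _ => 0, by simp, by simp, ?_⟩
    intro a ha
    exact Or.inl (Or.inl (hN a ha _ hmem (hq y hy y' hy')))
  push Not at hc
  let P : Subgroup G → Prop := fun R => R ≤ M ∧ (∀ a ∈ M, ∀ x ∈ R, a * x * a⁻¹ ∈ R) ∧
    ∃ y ∈ Y, ∃ y' ∈ Y, y ≠ y' ∧ y⁻¹ * y' ∈ R
  let c : Subgroup G → ℕ := fun R => (Y.offDiag.filter (fun z => z.1⁻¹ * z.2 ∈ R)).card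
  have hPM : P M := by
    obtain ⟨a, ha, b, hb, hab⟩ := one_lt_card.mp hY
    exact ⟨le_rfl, fun a ha x hx => M.mul_mem (M.mul_mem ha hx) (M.inv_mem ha),
      a, ha, b, hb, hab, hq a ha b hb⟩
  obtain ⟨R, ⟨hRM, hRn, y, hy, y', hy', hne, hb⟩, hmin⟩ :=
    exists_minimalFor_of_wellFoundedLT P c ⟨M, hPM⟩
  obtain ⟨L, hbL, hLn, hL⟩ := hres _ (hq y hy y' hy') (hc y hy y' hy' hne)
  have hsep : ∀ u ∈ Y, ∀ u' ∈ Y, u⁻¹ * u' ∈ R ⊓ L → u = u' := by
    intro u hu u' hu' hmem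
    by_contra huu
    have hP : P (R ⊓ L) := ⟨inf_le_left.trans hRM,
      fun a ha x hx => ⟨hRn a ha x hx.1, hLn a ha x hx.2⟩, u, hu, u', hu', huu, hmem⟩
    have hlt : c (R ⊓ L) < c R := by
      apply card_lt_card
      rw [ssubset_iff_of_subset]
      · refine ⟨(y, y'), mem_filter.mpr ⟨mem_offDiag.mpr ⟨hy, hy', hne⟩, hb⟩, ?_⟩
        intro h
        exact hbL (mem_filter.mp h).2.2
      · intro z hz
        rw [mem_filter] at hz ⊢
        exact ⟨hz.1, hz.2.1⟩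
    exact absurd (hmin hP hlt.le) (not_le.mpr hlt)
  rcases hL with hL | ⟨col, hcol, hL⟩
  · refine ⟨y, hy, y', hy', hne, {e | e * (y⁻¹ * y')⁻¹ ∈ R ⊓ L}, fun _ => 0, fun _ _ => hD, ?_, ?_⟩
    · intro e he e' he' _ u hu u' hu' huu
      refine hsep u hu u' hu' ?_
      rw [quot_eq huu]
      have := (R ⊓ L).mul_mem he ((R ⊓ L).inv_mem he')
      convert this using 1
      group
    · intro a ha
      exact Or.inl (Or.inr ⟨R.mul_mem (hRn a ha _ hb) (R.inv_mem hb), hL a ha _ (hRM hb)⟩)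
  · refine ⟨y, hy, y', hy', hne, R, col, fun e he => hcol e (hRM he), ?_, ?_⟩
    · intro e he e' he' hee u hu u' hu' huu
      refine hsep u hu u' hu' ?_
      rw [quot_eq huu]
      exact ⟨R.mul_mem he (R.inv_mem he'), hL e (hRM he) e' (hRM he') hee⟩
    · intro a ha
      exact Or.inl (Or.inr (hRn a ha _ hb))

theorem good2_of_series (h : HasInvariantAbelianSeries G) : Good2 G 1 := by
  obtain ⟨J, h1, h2, h3, h4⟩ := h
  intro Y hY
  obtain ⟨y, hy, y', hy', hne, p, hp, hb, hsep⟩ :=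
    exists_bottom J h1 (fun p hp => (h2 p hp).2) h3 Y hY
  have hcomm : ∀ a ∈ p.1, ∀ x ∈ p.1, a * x * a⁻¹ * x⁻¹ ∈ p.2 := fun a ha x hx =>
    (h2 p hp).1 (Subgroup.commutator_mem_commutator ha hx)
  have hN : ∀ a ∈ p.1, ∀ x ∈ p.2, a * x * a⁻¹ ∈ p.2 := by
    intro a ha x hx
    have := p.2.mul_mem (hcomm a ha x ((h2 p hp).2 hx)) hx
    simpa using this
  refine ⟨y, hy, y', hy', hne, p.1, p.2, hsep, ?_, ?_⟩
  · exact good_of_residual le_rfl (fun a ha x hx _ => hN a ha x hx)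
      (fun g _ hg => ⟨p.2, hg, hN, Or.inl hcomm⟩)
  · intro a
    have hq := h4 p hp a
    have hle : p.1 ≤ p.1.map (MulAut.conj a).toMonoidHom ∨
        p.1.map (MulAut.conj a).toMonoidHom ≤ p.1 := by
      rcases h3 _ hp _ hq with h | h | h
      · left
        exact le_of_eq (congrArg Prod.fst h)
      · left
        exact h.trans (h2 _ hq).2
      · right
        exact h.trans (h2 _ hp).2
    rcases hle with h | h
    · right
      obtain ⟨x, hx, hxe⟩ := h hb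
      have : a⁻¹ * (y⁻¹ * y') * a = x := by
        rw [← hxe]; simp [mul_assoc]
      rw [this]; exact hx
    · left
      exact h ⟨_, hb, by simp⟩

lemma exists_jump {f : ℕ → Subgroup G} (h0 : f 0 = ⊤) {n : ℕ} (hn : f n = ⊥) (g : G)
    (hg : g ≠ 1) : ∃ i, g ∈ f i ∧ g ∉ f (i + 1) := by
  by_contra h
  push Not at h
  have : ∀ i, g ∈ f i := by
    intro i
    induction i with
    | zero => rw [h0]; trivial
    | succ i ih => exact h i ih
  have h1 := this n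
  rw [hn, Subgroup.mem_bot] at h1
  exact hg h1

lemma chain_order {f : ℕ → Subgroup G} (hf : Antitone f) :
    ∀ p ∈ Set.range (fun i => (f i, f (i + 1))), ∀ q ∈ Set.range (fun i => (f i, f (i + 1))),
      p = q ∨ p.1 ≤ q.2 ∨ q.1 ≤ p.2 := by
  rintro _ ⟨i, rfl⟩ _ ⟨j, rfl⟩
  rcases lt_trichotomy i j with h | h | h
  · exact Or.inr (Or.inr (hf h))
  · exact Or.inl (by rw [h])
  · exact Or.inr (Or.inl (hf h))

theorem series_of_solvable (h : Group.IsSolvable G) : HasInvariantAbelianSeries G := by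
  obtain ⟨n, hn⟩ := h.solvable
  refine ⟨Set.range (fun i => (derivedSeries G i, derivedSeries G (i + 1))), ?_, ?_,
    chain_order (derivedSeries_antitone G), ?_⟩
  · intro g hg
    obtain ⟨i, hi⟩ := exists_jump (derivedSeries_zero G) hn g hg
    exact ⟨_, ⟨i, rfl⟩, hi⟩
  · rintro _ ⟨i, rfl⟩
    exact ⟨le_rfl, derivedSeries_antitone G (Nat.le_succ i)⟩
  · rintro _ ⟨i, rfl⟩ a
    refine ⟨i, ?_⟩
    have := derivedSeries_normal G i
    have := derivedSeries_normal G (i + 1)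
    exact Prod.ext (Subgroup.Normal.map_conj_eq _ a).symm (Subgroup.Normal.map_conj_eq _ a).symm

theorem central_of_nilpotent (h : Group.IsNilpotent G) : HasCentralSeries G := by
  obtain ⟨n, hn⟩ := Subgroup.nilpotent_iff_lowerCentralSeries.mp h
  refine ⟨Set.range (fun i => ((⊤ : Subgroup G).lowerCentralSeries i,
    (⊤ : Subgroup G).lowerCentralSeries (i + 1))), ?_, ?_,
    chain_order (Subgroup.lowerCentralSeries_antitone ⊤)⟩
  · intro g hg
    obtain ⟨i, hi⟩ := exists_jump (f := (⊤ : Subgroup G).lowerCentralSeries) rfl hn g hg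
    exact ⟨_, ⟨i, rfl⟩, hi⟩
  · rintro _ ⟨i, rfl⟩
    exact ⟨le_rfl, Subgroup.lowerCentralSeries_antitone ⊤ (Nat.le_succ i)⟩

theorem good_of_central (h : HasCentralSeries G) : Good (⊤ : Subgroup G) ⊥ 1 := by
  obtain ⟨J, h1, h2, h3⟩ := h
  intro Y _ hY
  obtain ⟨y, hy, y', hy', hne, p, hp, hb, hsep⟩ :=
    exists_bottom J h1 (fun p hp => (h2 p hp).2) h3 Y hY
  refine ⟨y, hy, y', hy', hne, {e | e * (y⁻¹ * y')⁻¹ ∈ p.2}, fun _ => 0, fun _ _ => Nat.one_pos,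
    ?_, ?_⟩
  · intro e he e' he' _ u hu u' hu' huu
    refine hsep u hu u' hu' ?_
    rw [quot_eq huu]
    have := p.2.mul_mem he (p.2.inv_mem he')
    convert this using 1
    group
  · intro a _
    left; right
    have := p.2.inv_mem ((h2 p hp).1
      (Subgroup.commutator_mem_commutator hb (Subgroup.mem_top a)))
    rw [commutatorElement_inv, commutatorElement_def] at this
    exact this

theorem good_of_ordered [LinearOrder G] [MulLeftMono G] [MulRightMono G] :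
    Good (⊤ : Subgroup G) ⊥ 1 := by
  intro Y _ hY
  set B := (Y ×ˢ Y).filter (fun z => z.1 < z.2) with hB
  have hBne : B.Nonempty := by
    obtain ⟨a, ha, b, hb, hab⟩ := one_lt_card.mp hY
    rcases lt_or_gt_of_ne hab with h | h
    · exact ⟨(a, b), mem_filter.mpr ⟨mem_product.mpr ⟨ha, hb⟩, h⟩⟩
    · exact ⟨(b, a), mem_filter.mpr ⟨mem_product.mpr ⟨hb, ha⟩, h⟩⟩
  obtain ⟨z, hz, hmin⟩ := exists_min_image B (fun z => z.1⁻¹ * z.2) hBne
  rw [mem_filter, mem_product] at hz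
  set b := z.1⁻¹ * z.2 with hb
  have hb1 : 1 < b := by
    rw [hb, lt_inv_mul_iff_mul_lt, mul_one]; exact hz.2
  have key : ∀ e e' : G, 1 < e → e' ≤ b → ∀ u ∈ Y, ∀ u' ∈ Y, u * e' = u' * e → ¬ u < u' := by
    intro e e' he he' u hu u' hu' huu hlt
    have h1 := hmin (u, u') (mem_filter.mpr ⟨mem_product.mpr ⟨hu, hu'⟩, hlt⟩)
    simp only at h1
    rw [quot_eq huu] at h1
    have h2 : e' * e⁻¹ < e' := by
      rw [mul_inv_lt_iff_lt_mul]
      exact lt_mul_of_one_lt_right' e' he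
    exact absurd (h1.trans_lt (h2.trans_le he')) (lt_irrefl b)
  refine ⟨z.1, hz.1.1, z.2, hz.1.2, hz.2.ne, {e | 1 < e ∧ e ≤ b}, fun _ => 0,
    fun _ _ => Nat.one_pos, ?_, ?_⟩
  · intro e he e' he' _ u hu u' hu' huu
    exact le_antisymm (not_lt.mp (key e e' he.1 he'.2 u' hu' u hu huu.symm))
      (not_lt.mp (key e' e he'.1 he.2 u hu u' hu' huu))
  · intro a _
    have hpos : ∀ a : G, 1 < a * b * a⁻¹ := by
      intro a
      rw [lt_mul_inv_iff_mul_lt, one_mul]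
      exact lt_mul_of_one_lt_right' a hb1
    rcases le_total (a * b * a⁻¹) b with h | h
    · exact Or.inl (Or.inr ⟨hpos a, h⟩)
    · refine Or.inr (Or.inr ⟨by simpa using hpos a⁻¹, ?_⟩)
      rw [le_mul_inv_iff_mul_le] at h
      rw [mul_assoc, inv_mul_le_iff_le_mul]
      exact h

/-- `L` is a maximal proper `M`-invariant subgroup of `M`. -/
def MaxN (M L : Subgroup G) : Prop :=
  Maximal (fun L : Subgroup G => L < M ∧ ∀ a ∈ M, ∀ x ∈ L, a * x * a⁻¹ ∈ L) L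

lemma MaxN.conj {M L : Subgroup G} [hM : M.Normal] (h : MaxN M L) (g : G) :
    MaxN M (L.map (MulAut.conj g).toMonoidHom) := by
  have aux : ∀ (g : G) (L : Subgroup G), (L < M ∧ ∀ a ∈ M, ∀ x ∈ L, a * x * a⁻¹ ∈ L) →
      (L.map (MulAut.conj g).toMonoidHom < M ∧
        ∀ a ∈ M, ∀ x ∈ L.map (MulAut.conj g).toMonoidHom,
          a * x * a⁻¹ ∈ L.map (MulAut.conj g).toMonoidHom) := by
    intro g L hL
    constructor
    · have h1 : M = M.map (MulAut.conj g).toMonoidHom := (Subgroup.Normal.map_conj_eq _ g).symm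
      rw [h1]
      refine lt_of_le_of_ne (Subgroup.map_mono hL.1.le) ?_
      intro h2
      exact hL.1.ne (Subgroup.map_injective (MulAut.conj g).injective h2)
    · rintro a ha _ ⟨x, hx, rfl⟩
      refine ⟨(g⁻¹ * a * g) * x * (g⁻¹ * a * g)⁻¹, hL.2 _ (hM.conj_mem' a ha g) x hx, ?_⟩
      simp [mul_assoc]
  refine ⟨aux g L h.1, ?_⟩
  intro L' hL' hle x hx
  have h1 := h.2 (aux g⁻¹ L' hL') (by
    intro z hz
    exact ⟨g * z * g⁻¹, hle ⟨z, hz, by simp⟩, by simp [mul_assoc]⟩)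
  exact ⟨g⁻¹ * x * g, h1 ⟨x, hx, by simp⟩, by simp [mul_assoc]⟩

lemma MaxN.normal {M L : Subgroup G} (h : MaxN M L) : (L.subgroupOf M).Normal :=
  ⟨fun x hx a => h.1.2 a a.2 x hx⟩

lemma MaxN.simple {M L : Subgroup G} (h : MaxN M L) [hn : (L.subgroupOf M).Normal] :
    IsSimpleGroup (M ⧸ L.subgroupOf M) := by
  have hnt : Nontrivial (M ⧸ L.subgroupOf M) := by
    obtain ⟨x, hxM, hxL⟩ := SetLike.exists_of_lt h.1.1
    refine ⟨⟨QuotientGroup.mk ⟨x, hxM⟩, 1, ?_⟩⟩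
    intro hx
    exact hxL ((QuotientGroup.eq_one_iff (N := L.subgroupOf M) _).mp hx)
  refine ⟨fun W hW => ?_⟩
  set L' : Subgroup G := (W.comap (QuotientGroup.mk' (L.subgroupOf M))).map M.subtype with hL'
  have hLL' : L ≤ L' := by
    intro x hx
    refine ⟨⟨x, h.1.1.le hx⟩, ?_, rfl⟩
    have : (QuotientGroup.mk' (L.subgroupOf M)) ⟨x, h.1.1.le hx⟩ = 1 :=
      (QuotientGroup.eq_one_iff _).mpr hx
    change (QuotientGroup.mk' (L.subgroupOf M)) ⟨x, h.1.1.le hx⟩ ∈ W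
    rw [this]; exact W.one_mem
  have hL'M : L' ≤ M := Subgroup.map_subtype_le _
  rcases eq_or_lt_of_le hL'M with he | hlt
  · right
    rw [eq_top_iff]
    intro w _
    obtain ⟨x, rfl⟩ := QuotientGroup.mk'_surjective _ w
    have : (x : G) ∈ L' := by rw [he]; exact x.2
    obtain ⟨x', hx', hxx⟩ := this
    have : x' = x := Subtype.ext hxx
    rw [← this]; exact hx'
  · left
    have h1 := h.2 (y := L') ⟨hlt, by
      rintro a ha _ ⟨x, hx, rfl⟩
      exact ⟨⟨a, ha⟩ * x * ⟨a, ha⟩⁻¹, (hW.comap _).conj_mem x hx _, rfl⟩⟩ hLL'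
    rw [eq_bot_iff]
    intro w hw
    obtain ⟨x, rfl⟩ := QuotientGroup.mk'_surjective _ w
    rw [Subgroup.mem_bot]
    exact (QuotientGroup.eq_one_iff _).mpr (h1 ⟨x, hw, rfl⟩)

theorem good2_of_finite [Finite G] {D : ℕ} (hD : 1 ≤ D)
    (h : ∀ (H : Subgroup G) (N : Subgroup H) [N.Normal], H.IsSubnormal → IsSimpleGroup (H ⧸ N) →
      (∀ x y : H ⧸ N, x * y = y * x) ∨ Nat.card (H ⧸ N) ≤ D) : Good2 G D := by
  classical
  intro Y hY
  let P : Subgroup G → Prop := fun M => M.Normal ∧ ∃ y ∈ Y, ∃ y' ∈ Y, y ≠ y' ∧ y⁻¹ * y' ∈ M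
  have hP : P ⊤ := by
    obtain ⟨a, ha, b, hb, hab⟩ := one_lt_card.mp hY
    exact ⟨inferInstance, a, ha, b, hb, hab, trivial⟩
  obtain ⟨M, ⟨hMn, y, hy, y', hy', hne, hb⟩, hmin⟩ := exists_minimal_of_wellFoundedLT P ⟨⊤, hP⟩
  set N : Subgroup G := M ⊓ sInf {L | MaxN M L} with hN
  have hmemN : ∀ x, x ∈ N ↔ x ∈ M ∧ ∀ L, MaxN M L → x ∈ L := by
    intro x
    rw [hN, Subgroup.mem_inf, Subgroup.mem_sInf]
    rfl
  have hNn : N.Normal := by
    refine ⟨fun x hx g => ?_⟩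
    rw [hmemN] at hx ⊢
    refine ⟨hMn.conj_mem x hx.1 g, fun L hL => ?_⟩
    obtain ⟨z, hz, hzx⟩ := hx.2 _ (hL.conj g⁻¹)
    have : g * x * g⁻¹ = z := by rw [← hzx]; simp [mul_assoc]
    rw [this]; exact hz
  have hMbot : ⊥ < M := by
    rw [bot_lt_iff_ne_bot]
    intro hM
    rw [hM, Subgroup.mem_bot] at hb
    exact hne (inv_mul_eq_one.mp hb)
  obtain ⟨L0, hL0⟩ : ∃ L, MaxN M L := exists_maximal_of_wellFoundedGT _ ⟨⊥, hMbot, by
    intro a _ x hx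
    rw [Subgroup.mem_bot] at hx ⊢
    simp [hx]⟩
  refine ⟨y, hy, y', hy', hne, M, N, ?_, ?_, fun a => Or.inl (hMn.conj_mem _ hb a)⟩
  · intro u hu u' hu' hmem
    by_contra huu
    have h1 : M ≤ N := hmin ⟨hNn, u, hu, u', hu', huu, hmem⟩ inf_le_left
    have h2 : M ≤ L0 := fun x hx => ((hmemN x).mp (h1 hx)).2 L0 hL0
    exact absurd hL0.1.1 (not_lt_of_ge h2)
  · refine good_of_residual hD (fun a _ x hx _ => hNn.conj_mem x hx a) ?_
    intro g hg hgN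
    rw [hmemN] at hgN
    push Not at hgN
    obtain ⟨L, hL, hgL⟩ := hgN hg
    refine ⟨L, hgL, hL.1.2, ?_⟩
    have := hL.normal
    rcases h M (L.subgroupOf M) hMn.isSubnormal hL.simple with hc | hc
    · left
      intro a ha x hx
      have h1 := hc (QuotientGroup.mk ⟨a, ha⟩) (QuotientGroup.mk ⟨x, hx⟩)
      have h2 : (QuotientGroup.mk (⟨a, ha⟩ * ⟨x, hx⟩ * ⟨a, ha⟩⁻¹ * ⟨x, hx⟩⁻¹ : M) :
          M ⧸ L.subgroupOf M) = 1 := by
        simp only [QuotientGroup.mk_mul, QuotientGroup.mk_inv]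
        rw [h1]; group
      exact (QuotientGroup.eq_one_iff (N := L.subgroupOf M) _).mp h2
    · right
      refine ⟨fun e => if he : e ∈ M then
        (Finite.equivFin (M ⧸ L.subgroupOf M) (QuotientGroup.mk ⟨e, he⟩)).val else 0, ?_, ?_⟩
      · intro e he
        simp only [dif_pos he]
        exact (Fin.is_lt _).trans_le hc
      · intro e he e' he' hee
        simp only [dif_pos he, dif_pos he'] at hee
        have h1 := (Finite.equivFin (M ⧸ L.subgroupOf M)).injective (Fin.ext hee)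
        have h2 : (QuotientGroup.mk (⟨e, he⟩ * ⟨e', he'⟩⁻¹ : M) : M ⧸ L.subgroupOf M) = 1 := by
          simp only [QuotientGroup.mk_mul, QuotientGroup.mk_inv]
          rw [h1]; group
        exact (QuotientGroup.eq_one_iff (N := L.subgroupOf M) _).mp h2

end Pool.Agent.MP_34e614_co
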