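import Pool.Agent.MP_34e614_co.Basic

set_option autoImplicit false

open Finset
open scoped Pointwise

namespace Pool.Agent.MP_34e614_co

variable {G : Type*} [Group G] [DecidableEq G]

/-- Inner condition on a pair `N ≤ M`: in every finite subset `Y` of `M` with two elements some
quotient `b` has (half of) its `M`-conjugates in `N` or in one of `D` sets whose translates by
`Y` are disjoint. -/
def Good (M N : Subgroup G) (D : ℕ) : Prop :=
  ∀ Y : Finset G, (∀ y ∈ Y, y ∈ M) → 2 ≤ Y.card →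
    ∃ y ∈ Y, ∃ y' ∈ Y, y ≠ y' ∧ ∃ (J : Set G) (col : G → ℕ), (∀ e ∈ J, col e < D) ∧
      (∀ e ∈ J, ∀ e' ∈ J, col e = col e' → ∀ u ∈ Y, ∀ u' ∈ Y, u * e = u' * e' → u = u') ∧
      ∀ a ∈ M, a * (y⁻¹ * y') * a⁻¹ ∈ (N : Set G) ∪ J ∨ a⁻¹ * (y⁻¹ * y') * a ∈ (N : Set G) ∪ J

/-- Outer condition. -/
def Good2 (G : Type*) [Group G] (D : ℕ) : Prop :=
  ∀ Y : Finset G, 2 ≤ Y.card →
    ∃ y ∈ Y, ∃ y' ∈ Y, y ≠ y' ∧ ∃ M N : Subgroup G,
      (∀ u ∈ Y, ∀ u' ∈ Y, u⁻¹ * u' ∈ N → u = u') ∧ Good M N D ∧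
      ∀ a : G, a * (y⁻¹ * y') * a⁻¹ ∈ M ∨ a⁻¹ * (y⁻¹ * y') * a ∈ M

omit [DecidableEq G] in
lemma Good.inf {M N : Subgroup G} {D : ℕ} (h : Good M N D) (H : Subgroup G) :
    Good (M ⊓ H) (N ⊓ H) D := by
  intro Y hY h2
  obtain ⟨y, hy, y', hy', hne, J, col, hcol, hsep, hconj⟩ := h Y (fun y hy => (hY y hy).1) h2
  refine ⟨y, hy, y', hy', hne, J, col, hcol, hsep, ?_⟩
  intro a ha
  have hb : y⁻¹ * y' ∈ H := H.mul_mem (H.inv_mem (hY y hy).2) (hY y' hy').2
  rcases hconj a ha.1 with h | h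
  · left
    rcases h with h | h
    · exact Or.inl ⟨h, H.mul_mem (H.mul_mem ha.2 hb) (H.inv_mem ha.2)⟩
    · exact Or.inr h
  · right
    rcases h with h | h
    · exact Or.inl ⟨h, H.mul_mem (H.mul_mem (H.inv_mem ha.2) hb) ha.2⟩
    · exact Or.inr h

/-- The data of a symmetric set with controlled growth and no large commuting parts. -/
structure Setup (S : Finset G) (Δ T r : ℕ) : Prop where
  one : (1 : G) ∈ S
  symm : S⁻¹ = S
  grow : (S ^ 11).card ≤ Δ * S.card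
  comm : ∀ Z : Subgroup G, (∀ x ∈ Z, ∀ y ∈ Z, x * y = y * x) → (part (S ^ 4) Z).card ≤ T
  stop : ∀ Z : Subgroup G, (∀ x ∈ Z, ∀ y ∈ Z, x * y = y * x) →
      (part (S ^ (4 * r)) Z).card < 2 ^ r

variable {S : Finset G} {Δ T r : ℕ}

lemma Setup.dens (h : Setup S Δ T r) {j : ℕ} (hj : j ≤ 10) (H : Subgroup G) :
    (part (S ^ j) H).card ≤ Δ * (part (S ^ 2) H).card := by
  have h1 := card_mul_part_le S (S ^ j) H
  rw [h.symm, ← sq, ← pow_succ'] at h1
  have h2 : (S ^ (j + 1)).card ≤ (S ^ 11).card :=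
    card_le_card (pow_subset_pow_right h.one (by omega))
  have h3 : 0 < S.card := card_pos.mpr ⟨1, h.one⟩
  have h4 : S.card * (part (S ^ j) H).card ≤ S.card * (Δ * (part (S ^ 2) H).card) := by
    calc _ ≤ _ := h1
      _ ≤ (Δ * S.card) * (part (S ^ 2) H).card := Nat.mul_le_mul_right _ (h2.trans h.grow)
      _ = _ := by ring
  exact Nat.le_of_mul_le_mul_left h4 h3

lemma Setup.one_le_T (h : Setup S Δ T r) : 1 ≤ T := by
  have h1 := h.comm ⊥ (by
    intro x hx y hy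
    rw [Subgroup.mem_bot] at hx hy
    rw [hx, hy])
  refine le_trans (card_pos.mpr ⟨1, ?_⟩) h1
  rw [mem_part]
  exact ⟨one_mem_pow h.one, (⊥ : Subgroup G).one_mem⟩

lemma Setup.one_le_Δ (h : Setup S Δ T r) : 1 ≤ Δ := by
  have h1 : 0 < (S ^ 11).card := card_pos.mpr ⟨1, one_mem_pow h.one⟩
  have h2 := h.grow
  rcases Nat.eq_zero_or_pos Δ with h0 | h0
  · rw [h0] at h2; omega
  · exact h0

/-- A transversal modulo the centre. -/
lemma Setup.transversal (h : Setup S Δ T r) (H : Subgroup G) :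
    ∃ Y : Finset G, (∀ y ∈ Y, y ∈ S ^ 2 ∧ y ∈ H) ∧
      (∀ y ∈ Y, ∀ y' ∈ Y, y⁻¹ * y' ∈ cen H → y = y') ∧
      (part (S ^ 2) H).card ≤ T * Y.card := by
  obtain ⟨Y, hY, hsep, hc⟩ := exists_transversal (part (S ^ 2) H) (cen H) (part (S ^ 4) (cen H)) (by
    intro x hx y hy hxy
    rw [mem_part] at hx hy ⊢
    exact ⟨mul_mem_pow_add (inv_mem_pow_of_symm h.symm hx.1) hy.1, hxy⟩)
  refine ⟨Y, fun y hy => mem_part.mp (hY hy), hsep, hc.trans ?_⟩
  exact Nat.mul_le_mul_right _ (h.comm _ (cen_comm H))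

/-- A set whose translates by `Y` are disjoint is small. -/
lemma Setup.small (h : Setup S Δ T r) (H : Subgroup G) (Y : Finset G)
    (hY : ∀ y ∈ Y, y ∈ S ^ 2 ∧ y ∈ H) (hc : (part (S ^ 2) H).card ≤ T * Y.card)
    (hne : 0 < Y.card) (E : Finset G) (hE : ∀ e ∈ E, e ∈ S ^ 8 ∧ e ∈ H)
    (hsep : ∀ u ∈ Y, ∀ u' ∈ Y, ∀ e ∈ E, ∀ e' ∈ E, u * e = u' * e' → u = u') :
    E.card ≤ Δ * T := by
  have h1 := card_mul_le_of_sep Y E (part (S ^ 10) H) hsep (by
    intro u hu e he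
    rw [mem_part]
    exact ⟨mul_mem_pow_add (hY u hu).1 (hE e he).1, H.mul_mem (hY u hu).2 (hE e he).2⟩)
  have h2 := h.dens (j := 10) le_rfl H
  have h3 : Y.card * E.card ≤ Y.card * (Δ * T) := by
    calc _ ≤ _ := h1
      _ ≤ _ := h2
      _ ≤ Δ * (T * Y.card) := Nat.mul_le_mul_left _ hc
      _ = _ := by ring
  exact Nat.le_of_mul_le_mul_left h3 hne

/-- Few conjugates give a large centraliser. -/
lemma Setup.step (h : Setup S Δ T r) (H : Subgroup G) (b : G) (hb : b ∈ S ^ 4) (hbH : b ∈ H)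
    (U : Set G) (hU : ∀ a ∈ H, a * b * a⁻¹ ∈ U ∨ a⁻¹ * b * a ∈ U) (n : ℕ)
    (hn : (part (S ^ 8) (U ∩ H)).card ≤ n) :
    (part (S ^ 2) H).card ≤ (2 * n * Δ) * (part (S ^ 2) (cz H b)).card := by
  set X := part (S ^ 2) ((H : Set G) ∩ {a | a * b * a⁻¹ ∈ U}) with hX
  have h1 : (part (S ^ 2) H).card ≤ 2 * X.card := by
    have : part (S ^ 2) H ⊆ X ∪ X⁻¹ := by
      intro a ha
      rw [mem_part] at ha
      rw [mem_union]
      rcases hU a ha.2 with h' | h'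
      · left
        rw [hX, mem_part]
        exact ⟨ha.1, ha.2, h'⟩
      · right
        rw [mem_inv']
        rw [hX, mem_part]
        refine ⟨inv_mem_pow_of_symm h.symm ha.1, H.inv_mem ha.2, ?_⟩
        simpa using h'
    calc _ ≤ (X ∪ X⁻¹).card := card_le_card this
      _ ≤ X.card + X⁻¹.card := card_union_le _ _
      _ = 2 * X.card := by rw [card_inv]; ring
  have h2 : X.card ≤ (part (S ^ 4) (cz H b)).card * (part (S ^ 8) (U ∩ H)).card := by
    refine card_le_of_fibre X (fun a => a * b * a⁻¹) _ _ ?_ ?_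
    · intro a ha
      rw [hX, mem_part] at ha
      rw [mem_part]
      refine ⟨?_, ha.2.2, H.mul_mem (H.mul_mem ha.2.1 hbH) (H.inv_mem ha.2.1)⟩
      exact mul_mem_pow_add (mul_mem_pow_add ha.1 hb) (inv_mem_pow_of_symm h.symm ha.1)
    · intro x hx y hy hxy
      rw [hX, mem_part] at hx hy
      rw [mem_part]
      refine ⟨mul_mem_pow_add (inv_mem_pow_of_symm h.symm hx.1) hy.1, ?_⟩
      refine mem_cz.mpr ⟨H.mul_mem (H.inv_mem hx.2.1) hy.2.1, ?_⟩
      have hxy' : x * b * x⁻¹ = y * b * y⁻¹ := hxy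
      calc b * (x⁻¹ * y) = x⁻¹ * (x * b * x⁻¹) * y := by group
        _ = x⁻¹ * (y * b * y⁻¹) * y := by rw [hxy']
        _ = x⁻¹ * y * b := by group
  have h3 := h.dens (j := 4) (by norm_num) (cz H b)
  calc _ ≤ 2 * X.card := h1
    _ ≤ 2 * ((Δ * (part (S ^ 2) (cz H b)).card) * n) :=
        Nat.mul_le_mul_left _ (h2.trans (Nat.mul_le_mul h3 hn))
    _ = _ := by ring

lemma two_le_of_lt {T a y : ℕ} (h1 : T < a) (h2 : a ≤ T * y) : 2 ≤ y := by
  by_contra hh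
  have : y ≤ 1 := by omega
  have : T * y ≤ T * 1 := Nat.mul_le_mul_left _ this
  omega

/-- The inner bound. -/
lemma Setup.inner (h : Setup S Δ T r) {M N : Subgroup G} {D W : ℕ} (hG : Good M N D)
    (hW : (part (S ^ 8) N).card ≤ W) :
    (part (S ^ 2) M).card ≤ T * (2 * (W + D * (Δ * T)) * Δ) ^ r := by
  have hW1 : 1 ≤ W := by
    refine le_trans (card_pos.mpr ⟨1, ?_⟩) hW
    rw [mem_part]
    exact ⟨one_mem_pow h.one, N.one_mem⟩
  refine greedy S h.one T r _ ?_ M h.stop ?_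
  · have := h.one_le_Δ
    have h2 : 1 ≤ 2 * (W + D * (Δ * T)) := by omega
    exact Nat.one_le_iff_ne_zero.mpr (Nat.mul_ne_zero (by omega) (by omega))
  intro H hH hT
  obtain ⟨Y, hY, hsep, hc⟩ := h.transversal H
  have h2 : 2 ≤ Y.card := two_le_of_lt hT hc
  obtain ⟨y, hy, y', hy', hne, J, col, hcol, hJ, hconj⟩ := hG Y (fun y hy => hH (hY y hy).2) h2
  have hb4 : y⁻¹ * y' ∈ S ^ 4 :=
    mul_mem_pow_add (inv_mem_pow_of_symm h.symm (hY y hy).1) (hY y' hy').1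
  have hbH : y⁻¹ * y' ∈ H := H.mul_mem (H.inv_mem (hY y hy).2) (hY y' hy').2
  refine ⟨y⁻¹ * y', hb4, hbH, fun hcen => hne (hsep y hy y' hy' hcen), ?_⟩
  refine h.step H _ hb4 hbH ((N : Set G) ∪ J) (fun a ha => hconj a (hH ha)) _ ?_
  have h3 : part (S ^ 8) (((N : Set G) ∪ J) ∩ H) ⊆ part (S ^ 8) N ∪ part (S ^ 8) (J ∩ H) := by
    intro e he
    rw [mem_part] at he
    rw [mem_union, mem_part, mem_part]
    rcases he.2.1 with h' | h'
    · exact Or.inl ⟨he.1, h'⟩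
    · exact Or.inr ⟨he.1, h', he.2.2⟩
  have h4 : (part (S ^ 8) (J ∩ H)).card ≤ (Δ * T) * (range D).card := by
    refine Finset.card_le_mul_card_image_of_maps_to (f := col) ?_ _ ?_
    · intro e he
      rw [mem_part] at he
      exact mem_range.mpr (hcol e he.2.1)
    · intro c _
      refine h.small H Y hY hc (by omega) _ ?_ ?_
      · intro e he
        rw [mem_filter, mem_part] at he
        exact ⟨he.1.1, he.1.2.2⟩
      · intro u hu u' hu' e he e' he' huu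
        rw [mem_filter, mem_part] at he he'
        exact hJ e he.1.2.1 e' he'.1.2.1 (he.2.trans he'.2.symm) u hu u' hu' huu
  rw [card_range] at h4
  calc _ ≤ _ := card_le_card h3
    _ ≤ _ := card_union_le _ _
    _ ≤ W + D * (Δ * T) := by rw [mul_comm D]; exact Nat.add_le_add hW h4

lemma Setup.card_le_top (h : Setup S Δ T r) : S.card ≤ (part (S ^ 2) (⊤ : Subgroup G)).card := by
  apply card_le_card
  intro x hx
  rw [mem_part]
  refine ⟨?_, trivial⟩
  rw [sq]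
  simpa using mul_mem_mul hx h.one

/-- One-level bound. -/
theorem Setup.bound1 (h : Setup S Δ T r) {D : ℕ} (hG : Good (⊤ : Subgroup G) ⊥ D) :
    S.card ≤ T * (2 * (D + 1) * Δ ^ 2 * T) ^ r := by
  have hW : (part (S ^ 8) (⊥ : Subgroup G)).card ≤ Δ * T := by
    have : part (S ^ 8) (⊥ : Subgroup G) ⊆ {1} := by
      intro x hx
      rw [mem_part] at hx
      rw [mem_singleton]
      exact Subgroup.mem_bot.mp hx.2
    have h1 := card_le_card this
    rw [card_singleton] at h1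
    have h2 := h.one_le_Δ
    have h3 := h.one_le_T
    exact h1.trans (Nat.one_le_iff_ne_zero.mpr (Nat.mul_ne_zero (by omega) (by omega)))
  have := h.inner hG hW
  refine h.card_le_top.trans (this.trans (le_of_eq ?_))
  congr 2
  ring

/-- Two-level bound. -/
theorem Setup.bound2 (h : Setup S Δ T r) {D : ℕ} (hG : Good2 G D) :
    S.card ≤ T * (2 * Δ ^ 2 * T * (2 * (D + 1) * Δ ^ 2 * T) ^ r) ^ r := by
  have hΔ := h.one_le_Δ
  have hT1 := h.one_le_T
  refine h.card_le_top.trans (greedy S h.one T r _ ?_ ⊤ h.stop ?_)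
  · apply Nat.one_le_iff_ne_zero.mpr
    positivity
  intro H _ hT
  obtain ⟨Y, hY, hsep, hc⟩ := h.transversal H
  have h2 : 2 ≤ Y.card := two_le_of_lt hT hc
  obtain ⟨y, hy, y', hy', hne, M, N, hN, hMN, hconj⟩ := hG Y h2
  have hb4 : y⁻¹ * y' ∈ S ^ 4 :=
    mul_mem_pow_add (inv_mem_pow_of_symm h.symm (hY y hy).1) (hY y' hy').1
  have hbH : y⁻¹ * y' ∈ H := H.mul_mem (H.inv_mem (hY y hy).2) (hY y' hy').2
  refine ⟨y⁻¹ * y', hb4, hbH, fun hcen => hne (hsep y hy y' hy' hcen), ?_⟩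
  have hW : (part (S ^ 8) (N ⊓ H : Subgroup G)).card ≤ Δ * T := by
    refine h.small H Y hY hc (by omega) _ ?_ ?_
    · intro e he
      rw [mem_part] at he
      exact ⟨he.1, he.2.2⟩
    · intro u hu u' hu' e he e' he' huu
      rw [mem_part] at he he'
      refine hN u hu u' hu' ?_
      have : u⁻¹ * u' = e * e'⁻¹ := by
        calc u⁻¹ * u' = u⁻¹ * (u' * e') * e'⁻¹ := by group
          _ = u⁻¹ * (u * e) * e'⁻¹ := by rw [huu]
          _ = e * e'⁻¹ := by group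
      rw [this]
      exact N.mul_mem he.2.1 (N.inv_mem he'.2.1)
  have h3 := h.inner (hMN.inf H) hW
  have h4 := h.dens (j := 8) (by norm_num) (M ⊓ H)
  have h5 := h.step H _ hb4 hbH (M : Set G) (fun a _ => hconj a)
    (Δ * (T * (2 * (Δ * T + D * (Δ * T)) * Δ) ^ r)) (h4.trans (Nat.mul_le_mul_left _ h3))
  refine h5.trans (le_of_eq ?_)
  congr 1
  rw [show 2 * (Δ * T + D * (Δ * T)) * Δ = 2 * (D + 1) * Δ ^ 2 * T by ring]
  ring

end Pool.Agent.MP_34e614_co
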