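import Pool.Agent.MP_34e614_co.Num
import Pool.Agent.MP_34e614_co.Classes

set_option autoImplicit false

open Finset
open scoped Pointwise

namespace Pool.Agent.MP_34e614_co

variable {G : Type*} [Group G] [DecidableEq G]

lemma log_le_of_pow {a x e : ℕ} (ha : 1 ≤ a) (h : a ≤ x ^ e) :
    Real.log a ≤ e * Real.log x := by
  have h1 : (a : ℝ) ≤ (x : ℝ) ^ e := by exact_mod_cast h
  have h2 := Real.log_le_log (by exact_mod_cast ha) h1
  rwa [Real.log_pow] at h2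

lemma log_base {D Δ T : ℕ} (hΔ : 1 ≤ Δ) (hT : 1 ≤ T) :
    Real.log ((2 * (D + 1) * Δ ^ 2 * T : ℕ) : ℝ) =
      Real.log (2 * (D + 1)) + 2 * Real.log Δ + Real.log T := by
  have h1 : (0 : ℝ) < Δ := by exact_mod_cast hΔ
  have h2 : (0 : ℝ) < T := by exact_mod_cast hT
  push_cast
  rw [Real.log_mul (by positivity) h2.ne', Real.log_mul (by positivity) (by positivity),
    Real.log_pow]
  push_cast
  ring

lemma pow_bound1 {a s D Δ T r : ℕ} (hΔ : 1 ≤ Δ) (h1 : a ≤ Δ * s)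
    (h2 : s ≤ T * (2 * (D + 1) * Δ ^ 2 * T) ^ r) : a ≤ (2 * (D + 1) * Δ ^ 2 * T) ^ (r + 1) := by
  have h3 : Δ * T ≤ 2 * (D + 1) * Δ ^ 2 * T := by
    apply Nat.mul_le_mul_right
    nlinarith
  calc a ≤ Δ * (T * (2 * (D + 1) * Δ ^ 2 * T) ^ r) := h1.trans (Nat.mul_le_mul_left _ h2)
    _ = (Δ * T) * (2 * (D + 1) * Δ ^ 2 * T) ^ r := by ring
    _ ≤ (2 * (D + 1) * Δ ^ 2 * T) * (2 * (D + 1) * Δ ^ 2 * T) ^ r := Nat.mul_le_mul_right _ h3
    _ = _ := by ring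

lemma pow_bound2 {a s D Δ T r : ℕ} (hΔ : 1 ≤ Δ) (h1 : a ≤ Δ * s)
    (h2 : s ≤ T * (2 * Δ ^ 2 * T * (2 * (D + 1) * Δ ^ 2 * T) ^ r) ^ r) :
    a ≤ (2 * (D + 1) * Δ ^ 2 * T) ^ ((r + 1) * r + 1) := by
  obtain ⟨x, hx⟩ : ∃ x, x = 2 * (D + 1) * Δ ^ 2 * T := ⟨_, rfl⟩
  have h3 : Δ * T ≤ x := by
    rw [hx]
    apply Nat.mul_le_mul_right
    nlinarith
  have h4 : 2 * Δ ^ 2 * T ≤ x := by
    rw [hx]
    apply Nat.mul_le_mul_right
    apply Nat.mul_le_mul_right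
    omega
  rw [← hx] at h2 ⊢
  have h5 : (2 * Δ ^ 2 * T * x ^ r) ^ r ≤ x ^ ((r + 1) * r) := by
    rw [pow_mul, pow_succ' x r]
    exact Nat.pow_le_pow_left (Nat.mul_le_mul_right _ h4) r
  calc a ≤ Δ * (T * (2 * Δ ^ 2 * T * x ^ r) ^ r) := h1.trans (Nat.mul_le_mul_left _ h2)
    _ = (Δ * T) * (2 * Δ ^ 2 * T * x ^ r) ^ r := by ring
    _ ≤ x * x ^ ((r + 1) * r) := Nat.mul_le_mul h3 h5
    _ = _ := by ring

lemma single_case (A : Finset G) (hA : A.Nonempty) :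
    ∃ C : Finset G, C ⊆ A ^ 4 ∧ (∀ x ∈ C, ∀ y ∈ C, x * y = y * x) ∧ (1 : ℝ) ≤ C.card := by
  obtain ⟨x, hx⟩ := hA.pow (n := 4)
  refine ⟨{x}, by simpa using hx, by simp, by simp⟩

lemma num2 {u t k l lam : ℝ} (hu : 0 ≤ u) (ht : 1 ≤ t) (hk : 0.69 < k)
    (hlam : lam ≤ 107800 * (t * k ^ 3)) (hl : l ≤ 1.4 + u)
    (h : u ^ 3 ≤ 21 * t ^ 2 * (l + 2 * lam + t)) : u ≤ 200 * (t * k) := by
  by_contra hc
  push Not at hc
  obtain ⟨x, hx⟩ : ∃ x, x = t * k := ⟨_, rfl⟩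
  have ht0 : 0 < t := by linarith
  have hk0 : 0 < k := by linarith
  have h1 : t ≤ 1.45 * x := by rw [hx]; nlinarith
  have hx0 : 0 < x := by rw [hx]; positivity
  have h2 : t ^ 2 ≤ 2.11 * x ^ 2 := by nlinarith
  have h3 : t ^ 3 ≤ 3.06 * x ^ 3 := by
    have := mul_le_mul h2 h1 ht0.le (by positivity)
    have h3' : 0 < x ^ 3 := by positivity
    nlinarith
  have h4 : t ^ 2 ≤ t ^ 3 := pow_le_pow_right₀ ht (by norm_num)
  have h5 : t ^ 2 * (t * k ^ 3) = x ^ 3 := by rw [hx]; ring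
  have h6 : t ^ 2 * lam ≤ 107800 * x ^ 3 := by
    have := mul_le_mul_of_nonneg_left hlam (sq_nonneg t)
    linarith
  have h7 : t ^ 2 * l ≤ 1.4 * t ^ 2 + 2.11 * x ^ 2 * u := by
    have h8 := mul_le_mul_of_nonneg_left hl (sq_nonneg t)
    have h9 := mul_le_mul_of_nonneg_right h2 hu
    linarith
  have h8 : u ^ 3 ≤ 45 * (x ^ 2 * u) + 4600000 * x ^ 3 := by
    have h9 : 0 ≤ x ^ 2 * u := by positivity
    have h10 : 0 ≤ x ^ 3 := by positivity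
    nlinarith
  rw [← hx] at hc
  have h9 : (200 * x) ^ 2 ≤ u ^ 2 := pow_le_pow_left₀ (by positivity) hc.le 2
  have h10 : (200 * x) ^ 3 < u ^ 3 := pow_lt_pow_left₀ hc (by positivity) (by norm_num)
  have h11 := mul_le_mul_of_nonneg_right h9 hu
  have h12 : 0 ≤ x ^ 3 := by positivity
  nlinarith

/-- Two-level groups: exponent one third. -/
theorem main2 (A : Finset G) (hA : A.Nonempty) (hsymm : A⁻¹ = A) (K : ℝ) (hK : 1 ≤ K)
    (h3 : ((A ^ 3).card : ℝ) ≤ K * A.card) {D : ℕ} (hG : Good2 G D)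
    (hD : (D : ℝ) ≤ Real.exp (Real.log A.card ^ (1 / 3 : ℝ))) :
    ∃ C : Finset G, C ⊆ A ^ 4 ∧ (∀ x ∈ C, ∀ y ∈ C, x * y = y * x) ∧
      Real.exp (1 / 600 * (Real.log A.card ^ (1 / 3 : ℝ) / Real.log (2 * K))) ≤ C.card := by
  have hA1 : 1 ≤ A.card := card_pos.mpr hA
  rcases eq_or_lt_of_le hA1 with h1 | h1
  · obtain ⟨C, h4, h5, h6⟩ := single_case A hA
    refine ⟨C, h4, h5, ?_⟩
    rw [← h1]
    simpa using h6
  obtain ⟨C, hC4, hCc, S, Δ, t, m, hS, ht1, htT, hTt, hAS, hΔ, hmt, hmk⟩ :=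
    exists_setup A h1 hsymm K hK h3
  refine ⟨C, hC4, hCc, ?_⟩
  have hb := log_le_of_pow hA1 (pow_bound2 hS.one_le_Δ hAS (hS.bound2 hG))
  rw [log_base hS.one_le_Δ hS.one_le_T] at hb
  obtain ⟨u, hu⟩ : ∃ u, u = Real.log A.card ^ (1 / 3 : ℝ) := ⟨_, rfl⟩
  obtain ⟨k, hk⟩ : ∃ k, k = Real.log (2 * K) := ⟨_, rfl⟩
  have hL : 0 ≤ Real.log A.card := Real.log_natCast_nonneg _
  have hu0 : 0 ≤ u := by rw [hu]; exact Real.rpow_nonneg hL _
  have hu3 : u ^ 3 = Real.log A.card := by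
    rw [hu, ← Real.rpow_natCast, ← Real.rpow_mul hL]; norm_num
  have hk1 : 0.69 < k := by
    rw [hk]
    exact log_two_gt.trans_le (Real.log_le_log (by norm_num) (by linarith))
  rw [← hu] at hD ⊢
  rw [← hk] at hΔ hmk ⊢
  have ht1' : (1 : ℝ) ≤ t := by exact_mod_cast ht1
  have hmt' : (m : ℝ) ≤ 22 * t := by exact_mod_cast hmt
  have hl : Real.log (2 * (D + 1)) ≤ 1.4 + u := by
    have h4 : (2 : ℝ) * (D + 1) ≤ 2 ^ 2 * Real.exp u := by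
      have := Real.one_le_exp hu0
      linarith
    have h5 := Real.log_le_log (by positivity) h4
    rw [Real.log_mul (x := 2 ^ 2) (by norm_num) (Real.exp_pos u).ne', Real.log_pow,
      Real.log_exp] at h5
    have := log_two_lt
    push_cast at h5
    linarith
  have hlam : Real.log Δ ≤ 107800 * (t * k ^ 3) := by
    have h4 : (m : ℝ) ^ 2 ≤ (22 * t) * (70 * k) := by
      rw [sq]; exact mul_le_mul hmt' hmk (Nat.cast_nonneg _) (by positivity)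
    have h5 := mul_le_mul_of_nonneg_right h4 (sq_nonneg k)
    nlinarith
  have hl0 : 0 ≤ Real.log (2 * (D + 1)) := Real.log_nonneg (by
    have : (0 : ℝ) ≤ D := Nat.cast_nonneg D
    linarith)
  have hlam0 : 0 ≤ Real.log Δ := Real.log_natCast_nonneg _
  have hT0 : 0 ≤ Real.log C.card := Real.log_natCast_nonneg _
  have h4 : u ^ 3 ≤ 21 * t ^ 2 * (Real.log (2 * (D + 1)) + 2 * Real.log Δ + t) := by
    rw [hu3]
    refine hb.trans (mul_le_mul ?_ (by linarith) (by positivity) (by positivity))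
    push_cast
    nlinarith
  have h5 := num2 hu0 ht1' hk1 hlam hl h4
  have hC0 : (0 : ℝ) < C.card := by exact_mod_cast hS.one_le_T
  rw [← Real.le_log_iff_exp_le hC0]
  have h6 : u / k ≤ 200 * t := by
    rw [div_le_iff₀ (by linarith)]
    linarith
  linarith

lemma num1a {v t k lam : ℝ} (ht : 1 ≤ t) (hk : 0.69 < k) (hlam : lam ≤ 343000 * k ^ 4)
    (h : v ^ 2 ≤ 5 * t * (1.4 + 2 * lam + t)) : v ≤ 2000 * (t * k ^ 2) := by
  have h1 : 0.47 ≤ k ^ 2 := by nlinarith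
  have h2 : 0.22 ≤ k ^ 4 := by nlinarith
  have h3 : t ≤ t ^ 2 := by nlinarith
  have h4 : t * lam ≤ 343000 * (t ^ 2 * k ^ 4) := by
    have h5 := mul_le_mul_of_nonneg_left hlam (by linarith : 0 ≤ t)
    have h6 := mul_le_mul_of_nonneg_right h3 (by positivity : 0 ≤ k ^ 4)
    linarith
  have h5 := mul_le_mul_of_nonneg_left h2 (sq_nonneg t)
  refine le_of_pow_le_pow_left₀ (n := 2) (by norm_num) (by positivity) ?_
  have h6 : (2000 * (t * k ^ 2)) ^ 2 = 4000000 * (t ^ 2 * k ^ 4) := by ring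
  rw [h6]
  nlinarith

lemma num1b {L w t k lam m : ℝ} (ht : 1 ≤ t) (hk : 0.69 < k) (hL : 0 ≤ L) (hw : w ^ 5 = L ^ 2)
    (hm0 : 0 ≤ m) (hmt : m ≤ 22 * t) (hmk : m ≤ 70 * k) (hlam0 : 0 ≤ lam)
    (hlam : lam ≤ 70 * m ^ 2 * k ^ 2)
    (h : L ≤ 5 * t * (1.4 + 2 * lam + t)) : w ≤ 240 * (t * k) := by
  obtain ⟨x, hx⟩ : ∃ x, x = t * k := ⟨_, rfl⟩
  have ht0 : 0 < t := by linarith
  have hk0 : 0 < k := by linarith
  have hx0 : 0 < x := by rw [hx]; positivity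
  have h1 : t ≤ 1.45 * x := by rw [hx]; nlinarith
  have h2 : t ^ 4 ≤ 7 * x ^ 5 := by
    have h3 : t ^ 4 ≤ t ^ 5 := pow_le_pow_right₀ ht (by norm_num)
    have h4 : t ^ 5 ≤ (1.45 * x) ^ 5 := pow_le_pow_left₀ ht0.le h1 5
    have h5 : 0 ≤ x ^ 5 := by positivity
    rw [mul_pow] at h4
    norm_num at h4
    linarith
  have h3 : m ^ 4 ≤ (22 * t) ^ 3 * (70 * k) := by
    rw [pow_succ m 3]
    exact mul_le_mul (pow_le_pow_left₀ hm0 hmt 3) hmk hm0 (by positivity)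
  have h4 : lam ^ 2 ≤ (70 * m ^ 2 * k ^ 2) ^ 2 := pow_le_pow_left₀ hlam0 hlam 2
  have h5 : (t * lam) ^ 2 ≤ 3660000000 * x ^ 5 := by
    have h6 : (70 * m ^ 2 * k ^ 2) ^ 2 = 4900 * k ^ 4 * m ^ 4 := by ring
    have h7 := mul_le_mul_of_nonneg_left h3 (by positivity : 0 ≤ 4900 * k ^ 4)
    have h8 := mul_le_mul_of_nonneg_left (h4.trans (h6.le.trans h7)) (sq_nonneg t)
    have h9 : t ^ 2 * (4900 * k ^ 4 * ((22 * t) ^ 3 * (70 * k))) = 3652264000 * x ^ 5 := by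
      rw [hx]; ring
    have h10 : 0 ≤ x ^ 5 := by positivity
    rw [mul_pow]
    linarith
  have h6 : L ≤ 12 * t ^ 2 + 10 * (t * lam) := by nlinarith
  have h7 : L ^ 2 ≤ (12 * t ^ 2 + 10 * (t * lam)) ^ 2 := pow_le_pow_left₀ hL h6 2
  have h8 : (12 * t ^ 2 + 10 * (t * lam)) ^ 2 ≤ 288 * t ^ 4 + 200 * (t * lam) ^ 2 := by
    nlinarith [sq_nonneg (12 * t ^ 2 - 10 * (t * lam))]
  rw [← hx]
  refine le_of_pow_le_pow_left₀ (n := 5) (by norm_num) (by positivity) ?_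
  have h9 : 0 ≤ x ^ 5 := by positivity
  rw [hw, mul_pow]
  norm_num
  linarith

/-- One-level groups. -/
theorem main1 (A : Finset G) (hA : A.Nonempty) (hsymm : A⁻¹ = A) (K : ℝ) (hK : 1 ≤ K)
    (h3 : ((A ^ 3).card : ℝ) ≤ K * A.card) (hG : Good (⊤ : Subgroup G) ⊥ 1) :
    ∃ C : Finset G, C ⊆ A ^ 4 ∧ (∀ x ∈ C, ∀ y ∈ C, x * y = y * x) ∧
      Real.exp (1 / 6000 * max (Real.log A.card ^ (2 / 5 : ℝ) / Real.log (2 * K))
        (Real.log A.card ^ (1 / 2 : ℝ) / Real.log (2 * K) ^ 2)) ≤ C.card := by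
  have hA1 : 1 ≤ A.card := card_pos.mpr hA
  rcases eq_or_lt_of_le hA1 with h1 | h1
  · obtain ⟨C, h4, h5, h6⟩ := single_case A hA
    refine ⟨C, h4, h5, ?_⟩
    rw [← h1]
    simpa using h6
  obtain ⟨C, hC4, hCc, S, Δ, t, m, hS, ht1, htT, hTt, hAS, hΔ, hmt, hmk⟩ :=
    exists_setup A h1 hsymm K hK h3
  refine ⟨C, hC4, hCc, ?_⟩
  have hb := log_le_of_pow hA1 (pow_bound1 hS.one_le_Δ hAS (hS.bound1 hG))
  rw [log_base hS.one_le_Δ hS.one_le_T] at hb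
  obtain ⟨L, hLd⟩ : ∃ L, L = Real.log A.card := ⟨_, rfl⟩
  obtain ⟨k, hk⟩ : ∃ k, k = Real.log (2 * K) := ⟨_, rfl⟩
  have hL : 0 ≤ L := by rw [hLd]; exact Real.log_natCast_nonneg _
  have hk1 : 0.69 < k := by
    rw [hk]
    exact log_two_gt.trans_le (Real.log_le_log (by norm_num) (by linarith))
  rw [← hLd] at hb ⊢
  rw [← hk] at hΔ hmk ⊢
  have ht1' : (1 : ℝ) ≤ t := by exact_mod_cast ht1
  have hmt' : (m : ℝ) ≤ 22 * t := by exact_mod_cast hmt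
  have hl : Real.log (2 * ((1 : ℕ) + 1)) ≤ 1.4 := by
    rw [show (2 : ℝ) * ((1 : ℕ) + 1) = 2 ^ 2 by norm_num, Real.log_pow]
    have := log_two_lt
    push_cast
    linarith
  have hl0 : 0 ≤ Real.log (2 * ((1 : ℕ) + 1)) := Real.log_nonneg (by norm_num)
  have hlam0 : 0 ≤ Real.log Δ := Real.log_natCast_nonneg _
  have hT0 : 0 ≤ Real.log C.card := Real.log_natCast_nonneg _
  have h4 : L ≤ 5 * t * (1.4 + 2 * Real.log Δ + t) := by
    refine hb.trans (mul_le_mul ?_ (by linarith) (by positivity) (by positivity))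
    push_cast
    linarith
  have hw : (L ^ (2 / 5 : ℝ)) ^ 5 = L ^ 2 := by
    rw [← Real.rpow_natCast, ← Real.rpow_mul hL, ← Real.rpow_natCast]; norm_num
  have hv : (L ^ (1 / 2 : ℝ)) ^ 2 = L := by
    rw [← Real.rpow_natCast, ← Real.rpow_mul hL]; norm_num
  have h5 := num1b ht1' hk1 hL hw (Nat.cast_nonneg m) hmt' hmk hlam0 hΔ h4
  have hlam : Real.log Δ ≤ 343000 * k ^ 4 := by
    have h6 : (m : ℝ) ^ 2 ≤ (70 * k) ^ 2 := pow_le_pow_left₀ (Nat.cast_nonneg _) hmk 2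
    have h7 := mul_le_mul_of_nonneg_right h6 (sq_nonneg k)
    nlinarith
  have h6 := num1a ht1' hk1 hlam (hv.le.trans h4)
  have hC0 : (0 : ℝ) < C.card := by exact_mod_cast hS.one_le_T
  rw [← Real.le_log_iff_exp_le hC0]
  have h7 : L ^ (2 / 5 : ℝ) / k ≤ 2000 * t := by
    rw [div_le_iff₀ (by linarith)]
    have : 0 ≤ t * k := by positivity
    linarith
  have h8 : L ^ (1 / 2 : ℝ) / k ^ 2 ≤ 2000 * t := by
    rw [div_le_iff₀ (by positivity)]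
    linarith
  have h9 := max_le h7 h8
  linarith

end Pool.Agent.MP_34e614_co
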