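import Pool.Agent.MP_34e614_co.Core
import Pool.Agent.MP_34e614_co.CS

set_option autoImplicit false

open Finset
open scoped Pointwise

namespace Pool.Agent.MP_34e614_co

variable {G : Type*} [Group G] [DecidableEq G]

lemma sq_subset_four {A : Finset G} (hA : A.Nonempty) (hsymm : A⁻¹ = A) : A ^ 2 ⊆ A ^ 4 := by
  obtain ⟨a, ha⟩ := hA
  have h1 : (1 : G) ∈ A ^ 2 := by
    have ha' : a⁻¹ ∈ A := by rw [← hsymm]; exact inv_mem_inv ha
    have := mul_mem_mul ha ha'
    rw [← sq] at this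
    simpa using this
  intro x hx
  simpa using mul_mem_pow_add hx h1

lemma exists_max_comm (A : Finset G) : ∃ C : Finset G, C ⊆ A ^ 4 ∧
    (∀ x ∈ C, ∀ y ∈ C, x * y = y * x) ∧
    ∀ C' : Finset G, C' ⊆ A ^ 4 → (∀ x ∈ C', ∀ y ∈ C', x * y = y * x) → C'.card ≤ C.card := by
  classical
  obtain ⟨C, hC, hmax⟩ := exists_max_image
    ((A ^ 4).powerset.filter (fun C => ∀ x ∈ C, ∀ y ∈ C, x * y = y * x)) Finset.card
    ⟨∅, by simp⟩
  rw [mem_filter, mem_powerset] at hC
  exact ⟨C, hC.1, hC.2, fun C' h1 h2 => hmax C' (mem_filter.mpr ⟨mem_powerset.mpr h1, h2⟩)⟩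

lemma part_pow_le {A : Finset G} (hA : A.Nonempty) (hsymm : A⁻¹ = A) {K : ℝ}
    (h3 : ((A ^ 3).card : ℝ) ≤ K * A.card) {j : ℕ} (hj : 2 ≤ j) (Z : Subgroup G) :
    ((part (A ^ j) Z).card : ℝ) ≤ K ^ (j - 1) * (part (A ^ 4) Z).card := by
  have h0 : (0 : ℝ) < A.card := by exact_mod_cast card_pos.mpr hA
  have h1 := card_mul_part_le A (A ^ j) Z
  rw [hsymm, ← sq, ← pow_succ'] at h1
  have h2 := Finset.small_pow_of_small_tripling (m := j + 1) (by omega) h3 hsymm
  rw [show j + 1 - 2 = j - 1 by omega] at h2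
  have h4 : (part (A ^ 2) Z).card ≤ (part (A ^ 4) Z).card :=
    card_le_card (part_mono (sq_subset_four hA hsymm) le_rfl)
  have h5 : (A.card : ℝ) * (part (A ^ j) Z).card ≤
      ((A ^ (j + 1)).card : ℝ) * (part (A ^ 4) Z).card := by
    exact_mod_cast h1.trans (Nat.mul_le_mul_left _ h4)
  have h6 : (A.card : ℝ) * (part (A ^ j) Z).card ≤
      A.card * (K ^ (j - 1) * (part (A ^ 4) Z).card) := by
    have h7 := mul_le_mul_of_nonneg_right h2 (Nat.cast_nonneg (α := ℝ) (part (A ^ 4) Z).card)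
    have h8 : (K ^ (j - 1) * A.card) * ((part (A ^ 4) Z).card : ℝ) =
        A.card * (K ^ (j - 1) * (part (A ^ 4) Z).card) := by ring
    exact h5.trans (h7.trans h8.le)
  exact le_of_mul_le_mul_left h6 h0

lemma log_two_gt : (0.69 : ℝ) < Real.log 2 := by
  have := Real.log_two_gt_d9
  linarith

lemma log_two_lt : Real.log 2 < (0.7 : ℝ) := by
  have := Real.log_two_lt_d9
  linarith

/-- The choice of all parameters. -/
theorem exists_setup (A : Finset G) (hA2 : 2 ≤ A.card) (hsymm : A⁻¹ = A) (K : ℝ) (hK : 1 ≤ K)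
    (h3 : ((A ^ 3).card : ℝ) ≤ K * A.card) :
    ∃ C : Finset G, C ⊆ A ^ 4 ∧ (∀ x ∈ C, ∀ y ∈ C, x * y = y * x) ∧
      ∃ (S : Finset G) (Δ t m : ℕ), Setup S Δ C.card (4 * t) ∧ 1 ≤ t ∧
        (t : ℝ) ≤ 3 * Real.log C.card ∧ Real.log C.card ≤ t ∧ A.card ≤ Δ * S.card ∧
        Real.log Δ ≤ 70 * m ^ 2 * Real.log (2 * K) ^ 2 ∧ m ≤ 22 * t ∧
        (m : ℝ) ≤ 70 * Real.log (2 * K) := by
  have hA : A.Nonempty := card_pos.mp (by omega)
  have h0 : (0 : ℝ) < A.card := by exact_mod_cast card_pos.mpr hA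
  obtain ⟨C, hC4, hCc, hmax⟩ := exists_max_comm A
  have hT2 : 2 ≤ C.card := by
    obtain ⟨a, ha, a', ha', hne⟩ := one_lt_card.mp hA2
    have hi : a⁻¹ ∈ A := by rw [← hsymm]; exact inv_mem_inv ha
    have h1 : a⁻¹ * a' ∈ A ^ 4 := sq_subset_four hA hsymm (by rw [sq]; exact mul_mem_mul hi ha')
    have h2 : (1 : G) ∈ A ^ 4 := sq_subset_four hA hsymm (by
      rw [sq]; simpa using mul_mem_mul hi ha)
    have h4 : (1 : G) ≠ a⁻¹ * a' := by
      intro h
      apply hne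
      exact (inv_mul_eq_one.mp h.symm)
    have := hmax {1, a⁻¹ * a'} (by
      intro x hx
      rw [mem_insert, mem_singleton] at hx
      rcases hx with rfl | rfl <;> assumption) (by
      intro x hx y hy
      rw [mem_insert, mem_singleton] at hx hy
      rcases hx with rfl | rfl <;> rcases hy with rfl | rfl <;> simp)
    rwa [card_pair h4] at this
  have hZ : ∀ Z : Subgroup G, (∀ x ∈ Z, ∀ y ∈ Z, x * y = y * x) →
      (part (A ^ 4) Z).card ≤ C.card := by
    intro Z hZ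
    refine hmax _ (fun x hx => (mem_part.mp hx).1) ?_
    intro x hx y hy
    exact hZ x (mem_part.mp hx).2 y (mem_part.mp hy).2
  obtain ⟨T, hT⟩ : ∃ T, T = C.card := ⟨_, rfl⟩
  rw [← hT] at hZ hT2
  obtain ⟨t, ht⟩ : ∃ t, t = Nat.log 2 T + 1 := ⟨_, rfl⟩
  have hTt : T < 2 ^ t := by rw [ht]; exact Nat.lt_pow_succ_log_self (by norm_num) T
  have hT0 : (0 : ℝ) < T := by exact_mod_cast (by omega : 0 < T)
  have hl2 := log_two_gt
  have hl2' := log_two_lt
  have hlogT : Real.log T ≤ t := by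
    have h1 : (T : ℝ) ≤ 2 ^ t := by exact_mod_cast hTt.le
    have h2 := Real.log_le_log hT0 h1
    rw [Real.log_pow] at h2
    have : (0 : ℝ) ≤ t := Nat.cast_nonneg t
    nlinarith
  have htT : (t : ℝ) ≤ 3 * Real.log T := by
    have h1 : 2 ^ Nat.log 2 T ≤ T := Nat.pow_log_le_self 2 (by omega)
    have h2 : (2 : ℝ) ^ Nat.log 2 T ≤ T := by exact_mod_cast h1
    have h4 := Real.log_le_log (by positivity) h2
    rw [Real.log_pow] at h4
    have h5 : 1 ≤ Nat.log 2 T := Nat.le_log_of_pow_le (by norm_num) (by simpa using hT2)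
    have h6 : (1 : ℝ) ≤ Nat.log 2 T := by exact_mod_cast h5
    rw [ht]; push_cast
    nlinarith
  obtain ⟨k0, hk0⟩ : ∃ k0, k0 = Real.log (2 * K) := ⟨_, rfl⟩
  have hlK : 0 ≤ Real.log K := Real.log_nonneg hK
  have hk0' : k0 = Real.log 2 + Real.log K := by
    rw [hk0]; exact Real.log_mul (by norm_num) (by linarith)
  obtain ⟨κ, hκ⟩ : ∃ κ, κ = ⌈Real.log K / Real.log 2⌉₊ := ⟨_, rfl⟩
  have hκ1 : Real.log K ≤ κ * Real.log 2 := by
    have := Nat.le_ceil (Real.log K / Real.log 2)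
    rwa [div_le_iff₀ (by linarith), ← hκ] at this
  have hκ2 : κ * Real.log 2 ≤ k0 := by
    have := (Nat.ceil_lt_add_one (a := Real.log K / Real.log 2) (by positivity)).le
    rw [← hκ] at this
    have h1 := mul_le_mul_of_nonneg_right this (by linarith : 0 ≤ Real.log 2)
    rw [add_mul, div_mul_cancel₀ _ (by linarith)] at h1
    linarith
  have hKκ : K ≤ 2 ^ κ := by
    have := Real.exp_le_exp.mpr hκ1
    rwa [Real.exp_log (by linarith), Real.exp_nat_mul, Real.exp_log (by norm_num)] at this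
  have hκ0 : (0 : ℝ) ≤ κ := Nat.cast_nonneg κ
  -- the choice of `m`
  obtain ⟨m, hm11, hmt, hmk, hstop⟩ : ∃ m : ℕ, 11 ≤ m ∧ m ≤ 22 * t ∧ (m : ℝ) ≤ 70 * k0 ∧
      ∀ S : Finset G, (1 : G) ∈ S → S ^ m ⊆ A ^ 4 → ∀ Z : Subgroup G,
        (∀ x ∈ Z, ∀ y ∈ Z, x * y = y * x) →
        (part (S ^ (4 * (4 * t))) Z).card < 2 ^ (4 * t) := by
    by_cases hc : 3 * κ ≤ t
    · refine ⟨32 * κ + 11, by omega, by omega, ?_, ?_⟩
      · push_cast; nlinarith
      · intro S h1 hS Z hZc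
        obtain ⟨m, hm⟩ : ∃ m, m = 32 * κ + 11 := ⟨_, rfl⟩
        rw [← hm] at hS
        obtain ⟨d, hd⟩ : ∃ d, d = 16 * t / m := ⟨_, rfl⟩
        obtain ⟨q, hq⟩ : ∃ q, q = d + 1 := ⟨_, rfl⟩
        have hq1 : 4 * (4 * t) ≤ m * q := by
          have := Nat.lt_mul_div_succ (16 * t) (b := m) (by omega)
          rw [← hd, ← hq] at this
          omega
        have hsub : S ^ (4 * (4 * t)) ⊆ A ^ (4 * q) := by
          calc S ^ (4 * (4 * t)) ⊆ S ^ (m * q) := pow_subset_pow_right h1 hq1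
            _ = (S ^ m) ^ q := pow_mul _ _ _
            _ ⊆ (A ^ 4) ^ q := pow_subset_pow_left hS
            _ = A ^ (4 * q) := (pow_mul _ _ _).symm
        have h4 := part_pow_le hA hsymm h3 (j := 4 * q) (by omega) Z
        have h5 : κ * (4 * q - 1) ≤ 3 * t := by
          have h6 : m * d ≤ 16 * t := by rw [hd]; exact Nat.mul_div_le _ _
          have h7 : 4 * q - 1 = 4 * d + 3 := by omega
          rw [h7]
          have h8 : 32 * (κ * d) ≤ 16 * t := by
            calc 32 * (κ * d) = (32 * κ) * d := by ring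
              _ ≤ m * d := Nat.mul_le_mul_right _ (by omega)
              _ ≤ _ := h6
          have h9 : κ * (4 * d + 3) = 4 * (κ * d) + 3 * κ := by ring
          omega
        have h6 : K ^ (4 * q - 1) ≤ 2 ^ (3 * t) := by
          calc K ^ (4 * q - 1) ≤ (2 ^ κ) ^ (4 * q - 1) := pow_le_pow_left₀ (by linarith) hKκ _
            _ = 2 ^ (κ * (4 * q - 1)) := (pow_mul _ _ _).symm
            _ ≤ _ := pow_le_pow_right₀ (by norm_num) h5
        have h7 : ((part (A ^ 4) Z).card : ℝ) < 2 ^ t := by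
          exact_mod_cast (hZ Z hZc).trans_lt hTt
        have h8 : ((part (S ^ (4 * (4 * t))) Z).card : ℝ) ≤ (part (A ^ (4 * q)) Z).card := by
          exact_mod_cast card_le_card (part_mono hsub le_rfl)
        have h9 : ((part (S ^ (4 * (4 * t))) Z).card : ℝ) < 2 ^ (4 * t) := by
          have h10 := mul_le_mul_of_nonneg_right h6
            (Nat.cast_nonneg (α := ℝ) (part (A ^ 4) Z).card)
          have h11 := mul_lt_mul_of_pos_left h7 (by positivity : (0 : ℝ) < 2 ^ (3 * t))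
          have h12 : (2 : ℝ) ^ (3 * t) * 2 ^ t = 2 ^ (4 * t) := by
            rw [← pow_add]; congr 1; ring
          exact (h8.trans (h4.trans h10)).trans_lt (h11.trans_le h12.le)
        exact_mod_cast h9
    · refine ⟨16 * t, by omega, by omega, ?_, ?_⟩
      · have h1 : t ≤ 3 * κ := by omega
        have h2 : (t : ℝ) ≤ 3 * κ := by exact_mod_cast h1
        push_cast; nlinarith
      · intro S _ hS Z hZc
        rw [show 4 * (4 * t) = 16 * t by ring]
        calc _ ≤ (part (A ^ 4) Z).card := card_le_card (part_mono hS le_rfl)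
          _ ≤ T := hZ Z hZc
          _ < 2 ^ t := hTt
          _ ≤ _ := Nat.pow_le_pow_right (by norm_num) (by omega)
  obtain ⟨n, hn⟩ : ∃ n, n = ⌊Real.log (5 * K)⌋₊ + 1 := ⟨_, rfl⟩
  have hn1 : 5 * K < Real.exp n := by
    have := Real.exp_lt_exp.mpr (Nat.lt_floor_add_one (Real.log (5 * K)))
    rw [Real.exp_log (by linarith)] at this
    rw [hn]; push_cast; exact this
  have hn2 : (n : ℝ) ≤ 4 * k0 := by
    have h1 : Real.log (5 * K) ≤ Real.log (2 * K) + 1 := by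
      have h2 : Real.log (5 * K) ≤ Real.log (2 * K * Real.exp 1) := by
        apply Real.log_le_log (by linarith)
        have := Real.exp_one_gt_d9
        nlinarith
      rwa [Real.log_mul (x := 2 * K) (by linarith) (Real.exp_pos 1).ne', Real.log_exp] at h2
    have h2 := Nat.floor_le (a := Real.log (5 * K)) (Real.log_nonneg (by linarith))
    rw [hn]; push_cast
    linarith
  obtain ⟨S, hS1, hSs, hSm, hSc⟩ := croot_sisask A hA hsymm K hK h3 m n (by omega) hn1
  obtain ⟨k, hk⟩ : ∃ k, k = 16 * m ^ 2 * n := ⟨_, rfl⟩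
  rw [← hk] at hSc
  have hS0 : (0 : ℝ) < S.card := by exact_mod_cast card_pos.mpr ⟨1, hS1⟩
  have hA4 : ((A ^ 4).card : ℝ) ≤ (⌈2 * K ^ (k + 2)⌉₊ : ℕ) * S.card := by
    have h1 := Finset.small_pow_of_small_tripling (m := 4) (by omega) h3 hsymm
    calc _ ≤ K ^ (4 - 2) * A.card := h1
      _ ≤ K ^ (4 - 2) * (2 * K ^ k * S.card) := mul_le_mul_of_nonneg_left hSc (by positivity)
      _ = (2 * K ^ (k + 2)) * S.card := by ring
      _ ≤ _ := mul_le_mul_of_nonneg_right (Nat.le_ceil _) hS0.le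
  have hA4' : (A ^ 4).card ≤ ⌈2 * K ^ (k + 2)⌉₊ * S.card := by exact_mod_cast hA4
  have hsub : ∀ j, j ≤ 11 → S ^ j ⊆ A ^ 4 := fun j hj =>
    (pow_subset_pow_right hS1 (by omega)).trans hSm
  refine ⟨C, hC4, hCc, S, ⌈2 * K ^ (k + 2)⌉₊, t, m, ?_⟩
  rw [← hT, ← hk0]
  refine ⟨⟨hS1, hSs, ?_, ?_, hstop S hS1 hSm⟩, by omega, htT, hlogT, ?_, ?_, hmt, hmk⟩
  · exact (card_le_card (hsub 11 le_rfl)).trans hA4'
  · intro Z hZc
    exact (card_le_card (part_mono (hsub 4 (by norm_num)) le_rfl)).trans (hZ Z hZc)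
  · refine le_trans ?_ hA4'
    rw [show A ^ 4 = A * A ^ 3 from pow_succ' A 3]
    exact card_le_card_mul_right hA.pow
  · have h1 : (1 : ℝ) ≤ K ^ (k + 2) := one_le_pow₀ hK
    have h2 : ((⌈2 * K ^ (k + 2)⌉₊ : ℕ) : ℝ) ≤ 2 ^ 2 * K ^ (k + 2) := by
      have := (Nat.ceil_lt_add_one (a := 2 * K ^ (k + 2)) (by positivity)).le
      linarith
    have h4 : (0 : ℝ) < (⌈2 * K ^ (k + 2)⌉₊ : ℕ) := by
      have := Nat.le_ceil (2 * K ^ (k + 2))
      linarith
    have h5 := Real.log_le_log h4 h2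
    rw [Real.log_mul (by norm_num) (by positivity), Real.log_pow, Real.log_pow] at h5
    have hm1 : (11 : ℝ) ≤ m := by exact_mod_cast hm11
    have hk1 : (k : ℝ) ≤ 64 * m ^ 2 * k0 := by
      rw [hk]; push_cast
      have h9 : (0 : ℝ) ≤ 16 * m ^ 2 := by positivity
      have := mul_le_mul_of_nonneg_left hn2 h9
      linarith
    have hk00 : 0.69 < k0 := by linarith
    have h6 : Real.log K ≤ k0 := by linarith
    have h7 : ((k + 2 : ℕ) : ℝ) * Real.log K ≤ (64 * m ^ 2 * k0 + 2) * k0 := by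
      push_cast
      exact mul_le_mul (by linarith) h6 hlK (by positivity)
    have h9 : (1 : ℝ) ≤ m ^ 2 := one_le_pow₀ (by linarith)
    have h10 : k0 ≤ m ^ 2 * k0 := le_mul_of_one_le_left (by linarith) h9
    have h8 : (4 : ℝ) ≤ 6 * (m ^ 2 * k0) := by linarith
    have h11 := mul_le_mul_of_nonneg_right h8 (by linarith : 0 ≤ k0)
    have h12 : Real.log 2 ≤ k0 := by linarith
    push_cast at h5 h7 ⊢
    linarith

end Pool.Agent.MP_34e614_co
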